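import Pool.Agent.FLG.M.Tr

/-!
# FLG-Z-Uniq: uniqueness of the standard solution
-/

set_option autoImplicit false

open scoped BigOperators Topology
open Filter

namespace Pool.Agent.FLG.Mo

open Pool.Agent.DST

variable {N : ℕ}

private theorem det_exp_ne' (M : Matrix (Fin N) (Fin N) ℂ) : (NormedSpace.exp M).det ≠ 0 :=
  ((Matrix.isUnit_iff_isUnit_det _).mp (Matrix.isUnit_exp M)).ne_zero

private theorem mon' (X : MS (Fin N)) (P : ℂ → Matrix (Fin N) (Fin N) ℂ) (w : ℂ) :
    NormedSpace.exp ((w + 2 * Real.pi * Complex.I) • X.θ) *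
        P (Complex.exp (w + 2 * Real.pi * Complex.I)) *
        NormedSpace.exp (-(w + 2 * Real.pi * Complex.I) • X.ρ) =
      ((-1 : ℂ) ^ X.dim) • (NormedSpace.exp (w • X.θ) * P (Complex.exp w) *
        NormedSpace.exp (-w • X.ρ) * NormedSpace.exp ((-(2 * Real.pi * Complex.I)) • X.ρ)) := by
  rw [show Complex.exp (w + 2 * Real.pi * Complex.I) = Complex.exp w by
    rw [Complex.exp_add, Complex.exp_two_pi_mul_I, mul_one]]
  have h1 : NormedSpace.exp ((w + 2 * Real.pi * Complex.I) • X.θ) =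
      ((-1 : ℂ) ^ X.dim) • NormedSpace.exp (w • X.θ) := by
    rw [add_smul, Matrix.exp_add_of_commute _ _ (((Commute.refl _).smul_left _).smul_right _),
      theta_comm_exp, Matrix.mul_smul, Matrix.mul_one]
  have h2 : NormedSpace.exp (-(w + 2 * Real.pi * Complex.I) • X.ρ) =
      NormedSpace.exp (-w • X.ρ) *
        NormedSpace.exp ((-(2 * Real.pi * Complex.I)) • X.ρ) := by
    rw [neg_add, add_smul,
      Matrix.exp_add_of_commute _ _ (((Commute.refl _).smul_left _).smul_right _)]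
  rw [h1, h2, Matrix.smul_mul, Matrix.smul_mul]
  simp only [Matrix.mul_assoc]

private theorem exp_tendsto : Tendsto (fun s : ℝ => Complex.exp (s : ℂ)) atTop
    (Bornology.cobounded ℂ) := by
  rw [← tendsto_norm_atTop_iff_cobounded]
  have h1 : (fun s : ℝ => ‖Complex.exp (s : ℂ)‖) = Real.exp := by
    funext s
    rw [Complex.norm_exp, Complex.ofReal_re]
  rw [h1]
  exact Real.tendsto_exp_atTop

/-- Two solutions `z^θ P(z) z^{-ρ}` with `P(z) → 1` as `z → ∞` agree. -/
theorem std_eq (X : MS (Fin N)) {P P' : ℂ → Matrix (Fin N) (Fin N) ℂ}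
    (h : Tendsto P (Bornology.cobounded ℂ) (𝓝 1)) (h' : Tendsto P' (Bornology.cobounded ℂ) (𝓝 1))
    (hP : X.Sol fun w => NormedSpace.exp (w • X.θ) * P (Complex.exp w) *
      NormedSpace.exp (-w • X.ρ))
    (hP' : X.Sol fun w => NormedSpace.exp (w • X.θ) * P' (Complex.exp w) *
      NormedSpace.exp (-w • X.ρ)) (w : ℂ) :
    P (Complex.exp w) = P' (Complex.exp w) := by
  have hdet : ∀ᶠ z in Bornology.cobounded ℂ, (P z).det ≠ 0 := by
    have h1 : Tendsto (fun z => (P z).det) (Bornology.cobounded ℂ) (𝓝 1) := by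
      have := (Continuous.matrix_det continuous_id (n := Fin N) (R := ℂ)).tendsto
        (1 : Matrix (Fin N) (Fin N) ℂ)
      rw [show (id (1 : Matrix (Fin N) (Fin N) ℂ)).det = 1 from Matrix.det_one] at this
      exact this.comp h
    exact h1.eventually_ne one_ne_zero
  obtain ⟨s₀, hs₀⟩ := (exp_tendsto.eventually hdet).exists
  have hw : (NormedSpace.exp ((s₀ : ℂ) • X.θ) * P (Complex.exp (s₀ : ℂ)) *
      NormedSpace.exp (-(s₀ : ℂ) • X.ρ)).det ≠ 0 := by
    rw [Matrix.det_mul, Matrix.det_mul]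
    exact mul_ne_zero (mul_ne_zero (det_exp_ne' _) hs₀) (det_exp_ne' _)
  obtain ⟨K, hK⟩ := sol_eq (Y := fun w => NormedSpace.exp (w • X.θ) * P (Complex.exp w) *
      NormedSpace.exp (-w • X.ρ)) hP hP' (w₀ := (s₀ : ℂ)) hw
  have h1 := hK ((s₀ : ℂ) + 2 * Real.pi * Complex.I)
  rw [mon' X P' (s₀ : ℂ), mon' X P (s₀ : ℂ), Matrix.smul_mul] at h1
  have hs : ((-1 : ℂ) ^ X.dim) ≠ 0 := pow_ne_zero _ (by norm_num)
  have h2 := smul_right_injective _ hs h1
  have h2' := hK (s₀ : ℂ)
  rw [h2'] at h2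
  have hu : IsUnit (NormedSpace.exp ((s₀ : ℂ) • X.θ) * P (Complex.exp (s₀ : ℂ)) *
      NormedSpace.exp (-(s₀ : ℂ) • X.ρ)) :=
    (Matrix.isUnit_iff_isUnit_det _).2 (isUnit_iff_ne_zero.2 hw)
  have h3 : NormedSpace.exp ((-(2 * Real.pi * Complex.I)) • X.ρ) * K =
      K * NormedSpace.exp ((-(2 * Real.pi * Complex.I)) • X.ρ) := by
    apply hu.mul_left_cancel
    have h4 := h2
    simp only [Matrix.mul_assoc] at h4 ⊢
    exact h4.symm
  have hn : ((-(2 * Real.pi * Complex.I)) • X.ρ) ^ nil X = 0 := by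
    rw [smul_pow, rho_pow_nil, smul_zero]
  have h5 := Pool.Agent.Helper7.DubStokes.intertwine_of_exp _ _ _ _ hn hn h3
  rw [Matrix.smul_mul, Matrix.mul_smul] at h5
  have hc : (-(2 * Real.pi * Complex.I)) ≠ 0 := neg_ne_zero.2 Complex.two_pi_I_ne_zero
  have hcomm : X.ρ * K = K * X.ρ := smul_right_injective _ hc h5
  have hKe : ∀ w : ℂ, NormedSpace.exp (-w • X.ρ) * K = K * NormedSpace.exp (-w • X.ρ) := by
    intro w
    let _ : NormedRing (Matrix (Fin N) (Fin N) ℂ) := Matrix.linftyOpNormedRing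
    let _ : NormedAlgebra ℂ (Matrix (Fin N) (Fin N) ℂ) := Matrix.linftyOpNormedAlgebra
    let _ : NormedAlgebra ℚ (Matrix (Fin N) (Fin N) ℂ) := NormedAlgebra.restrictScalars ℚ ℂ _
    have h6 : Commute (-w • X.ρ) K := (show Commute X.ρ K from hcomm).smul_left _
    exact h6.exp_left.eq
  have hPK : ∀ w : ℂ, P' (Complex.exp w) = P (Complex.exp w) * K := by
    intro w
    have h6 := hK w
    rw [Matrix.mul_assoc _ (NormedSpace.exp (-w • X.ρ)), hKe, ← Matrix.mul_assoc] at h6
    have hu1 : IsUnit (NormedSpace.exp (-w • X.ρ)) := Matrix.isUnit_exp _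
    have h7 := hu1.mul_right_cancel h6
    rw [Matrix.mul_assoc] at h7
    exact (Matrix.isUnit_exp (w • X.θ)).mul_left_cancel h7
  have hK1 : K = 1 := by
    have h6 : Tendsto (fun s : ℝ => P (Complex.exp (s : ℂ)) * K) atTop (𝓝 (1 * K)) :=
      (h.comp exp_tendsto).mul_const K
    have h7 : Tendsto (fun s : ℝ => P' (Complex.exp (s : ℂ))) atTop (𝓝 1) := h'.comp exp_tendsto
    have h8 : (fun s : ℝ => P' (Complex.exp (s : ℂ))) =
        fun s : ℝ => P (Complex.exp (s : ℂ)) * K := funext fun s => hPK s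
    rw [h8] at h7
    rw [← Matrix.one_mul K]
    exact tendsto_nhds_unique h6 h7
  rw [hPK w, hK1, Matrix.mul_one]

/-- The standard solution is unique. -/
theorem standard_unique {ι : Type} [Fintype ι] [DecidableEq ι] {X : Small ι} (hX : Ok X)
    {Z Z' : ℂ → Matrix ι ι ℂ} (hZ : IsStandard X Z) (hZ' : IsStandard X Z') : Z = Z' := by
  have e : Fin (Fintype.card ι) ≃ ι := (Fintype.equivFin ι).symm
  obtain ⟨hs, P, hP1, hP2⟩ := hZ
  obtain ⟨hs', P', hP1', hP2'⟩ := hZ'
  have key : ∀ (Z : ℂ → Matrix ι ι ℂ) (P : ℂ → Matrix ι ι ℂ) (hs : IsSolution X Z)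
      (_ : ∀ i j, Tendsto (fun z => P z i j) (Bornology.cobounded ℂ) (𝓝 ((1 : Matrix _ _ ℂ) i j)))
      (_ : ∀ w, Z w = NormedSpace.exp (w • X.theta) * P (Complex.exp w) *
        NormedSpace.exp (-w • X.cup)),
      Tendsto (fun z => (P z).submatrix e e) (Bornology.cobounded ℂ) (𝓝 1) ∧
      (toMS X hX e).Sol fun w => NormedSpace.exp (w • (toMS X hX e).θ) *
        (P (Complex.exp w)).submatrix e e * NormedSpace.exp (-w • (toMS X hX e).ρ) := by
    intro Z P hs hP1 hP2
    constructor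
    · have h1 : Tendsto P (Bornology.cobounded ℂ) (𝓝 1) :=
        tendsto_pi_nhds.mpr fun i => tendsto_pi_nhds.mpr fun j => hP1 i j
      have h2 := ((continuous_id.matrix_submatrix e e).tendsto (1 : Matrix ι ι ℂ)).comp h1
      simp only [id, Matrix.submatrix_one_equiv] at h2
      exact h2
    · have h1 := sub_sol hX e e hs
      have h2 : (fun w => (Z w).submatrix e e) = fun w =>
          NormedSpace.exp (w • (toMS X hX e).θ) *
            (P (Complex.exp w)).submatrix e e * NormedSpace.exp (-w • (toMS X hX e).ρ) := by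
        funext w
        rw [hP2 w, ← Matrix.submatrix_mul_equiv _ _ e e e, ← Matrix.submatrix_mul_equiv _ _ e e e,
          exp_sub, exp_sub, toMS_θ]
        rfl
      rw [h2] at h1
      exact h1
  obtain ⟨a1, a2⟩ := key Z P hs hP1 hP2
  obtain ⟨b1, b2⟩ := key Z' P' hs' hP1' hP2'
  funext w
  have h3 := std_eq (toMS X hX e) a1 b1 a2 b2 w
  have h4 : P (Complex.exp w) = P' (Complex.exp w) := by
    ext i j
    have := congrFun (congrFun h3 (e.symm i)) (e.symm j)
    simpa using this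
  rw [hP2, hP2', h4]

end Pool.Agent.FLG.Mo
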