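import Pool.Agent.FLG.K.Mat
import Pool.Agent.FLG.K.Bas
import Pool.Agent.FLG.K.GamB
import Pool.Agent.FLG.K.Weyl

/-!
# FLG-Z-Ev: integral combinations of line bundles, Chern characters and the Euler form
-/

set_option autoImplicit false

open scoped BigOperators Topology
open Filter
open Pool.Agent.DST.TE Pool.Agent.DSTJ.Spec

namespace Pool.Agent.FLG.RS

variable {r : ℕ} (D : RS r)

/-- formal integral combinations of line bundles -/
abbrev KB := {h : Fin r → ℂ // D.IsWt h} →₀ ℤ

/-- formal combinations of line bundles over the representation ring -/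
abbrev KR := {h : Fin r → ℂ // D.IsWt h} →₀ RH r

/-- the Chern character -/
noncomputable def chK (x : D.KB) (u : D.W) : ℂ := x.sum fun h m => (m : ℂ) * D.chL h.1 u

/-- `χ(X, L_h)` -/
noncomputable def wey (h : Fin r → ℂ) : ℂ :=
  ∏ a ∈ D.Pos, ((D.L a : ℂ) + 2 * D.ch h a) / D.L a

/-- the Euler form -/
noncomputable def eul (x y : D.KB) : ℂ :=
  x.sum fun h m => y.sum fun k l => (m : ℂ) * l * D.wey (k.1 - h.1)

/-- the restrictions of a combination of line bundles -/
noncomputable def LR (z : D.KR) (p : D.W) : RH r := z.sum fun h a => a * D.LB h.1 p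

/-- the value of a character at the unit element -/
noncomputable def aug (f : RH r) : ℤ := (evK_zero_int f).choose

variable {D}

theorem evK_aug (f : RH r) : evK 0 f = aug f := (evK_zero_int f).choose_spec

theorem aug_eq {f : RH r} {m : ℤ} (h : evK 0 f = m) : aug f = m := by
  rw [evK_aug] at h
  exact_mod_cast h

theorem aug_zero : aug (0 : RH r) = 0 := aug_eq (by simp)

theorem aug_add (f g : RH r) : aug (f + g) = aug f + aug g :=
  aug_eq (by rw [map_add, evK_aug, evK_aug]; push_cast; rfl)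

/-- forget the equivariance -/
noncomputable def aR (z : D.KR) : D.KB := z.mapRange aug aug_zero

theorem isWt_sub {h k : Fin r → ℂ} (hh : D.IsWt h) (hk : D.IsWt k) : D.IsWt (k - h) := by
  rw [sub_eq_add_neg]
  exact isWt_add hk (isWt_neg hh)

theorem sK_LB {h k : Fin r → ℂ} (hh : D.IsWt h) (hk : D.IsWt k) (p : D.W) :
    sK (D.LB h p) * D.LB k p = D.LB (k - h) p := by
  unfold LB
  rw [sK_chr, ← chr_add, sub_eq_add_neg, dl_add hk (isWt_neg hh), dl_neg hh]
  congr 1
  abel

theorem gkm_LR (z : D.KR) : D.GKM (D.LR z) :=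
  gkm_sum z.support fun h _ => gkm_mul (gkm_const (z h)) (gkm_LB h.2)

/-- the Euler pairing of combinations of line bundles -/
theorem eul_aR {z z' : D.KR} {F : RH r}
    (hF : D.IsChi (fun p => sK (D.LR z p) * D.LR z' p) F) : evK 0 F = D.eul (aR z) (aR z') := by
  have hw : ∀ h k : {h : Fin r → ℂ // D.IsWt h}, ∃ G, D.IsChi (D.LB (k.1 - h.1)) G ∧
      evK 0 G = D.wey (k.1 - h.1) := by
    intro h k
    obtain ⟨G, hG⟩ := exists_chi (gkm_LB (isWt_sub h.2 k.2))
    exact ⟨G, hG, weyl_dim (isWt_sub h.2 k.2) hG⟩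
  choose G hG hG' using hw
  have h1 : D.IsChi (fun p => ∑ h ∈ z.support, ∑ k ∈ z'.support,
      (sK (z h) * z' k) * D.LB (k.1 - h.1) p)
      (∑ h ∈ z.support, ∑ k ∈ z'.support, (sK (z h) * z' k) * G h k) :=
    isChi_sum _ fun h _ => isChi_sum _ fun k _ => isChi_mul _ (hG h k)
  have h2 : (fun p => sK (D.LR z p) * D.LR z' p) = fun p => ∑ h ∈ z.support, ∑ k ∈ z'.support,
      (sK (z h) * z' k) * D.LB (k.1 - h.1) p := by
    funext p
    unfold LR Finsupp.sum
    rw [map_sum, Finset.sum_mul_sum]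
    refine Finset.sum_congr rfl fun h _ => Finset.sum_congr rfl fun k _ => ?_
    rw [← sK_LB h.2 k.2 p, map_mul]
    ring
  rw [h2] at hF
  rw [chi_unique hF h1]
  unfold eul aR
  rw [Finsupp.sum_mapRange_index (by intro h; simp)]
  unfold Finsupp.sum
  rw [map_sum]
  refine Finset.sum_congr rfl fun h _ => ?_
  have h3 := Finsupp.sum_mapRange_index (f := (aug : RH r → ℤ)) (hf := aug_zero) (g := z')
    (h := fun (k : {h : Fin r → ℂ // D.IsWt h}) (l : ℤ) =>
      ((aug (z h) : ℤ) : ℂ) * l * D.wey (k.1 - h.1)) (by intro k; simp)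
  refine Eq.trans ?_ h3.symm
  rw [map_sum]
  refine Finset.sum_congr rfl fun k _ => ?_
  show _ = ((aug (z h) : ℤ) : ℂ) * ((aug (z' k) : ℤ) : ℂ) * D.wey (k.1 - h.1)
  rw [map_mul, map_mul, evK_sK, neg_zero, evK_aug, evK_aug, hG']

/-- the Chern character of a combination of line bundles -/
theorem cls_LR (z : D.KR) (u : D.W) : D.cls (fun p y => evK y (D.LR z p)) 0 u =
    (2 * Real.pi * Complex.I) ^ D.len u * D.chK (aR z) u := by
  have h1 : (fun (p : D.W) (y : Fin r → ℂ) => evK y (D.LR z p)) =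
      fun p y => ∑ h ∈ z.support, evK y (z h) * evK y (D.LB h.1 p) := by
    funext p y
    unfold LR Finsupp.sum
    rw [map_sum]
    exact Finset.sum_congr rfl fun h _ => map_mul _ _ _
  have hd : ∀ h, ∀ᶠ y in 𝓝 (0 : Fin r → ℂ), DifferentiableAt ℂ (fun y => evK y (z h)) y :=
    fun h => Eventually.of_forall fun y => evK_diff (z h) y
  rw [h1, cls_sum z.support (H := fun h p y => evK y (z h) * evK y (D.LB h.1 p))
    (fun h _ => gh_mul (gh_const (hd h)) (gh_evK (gkm_LB h.2) 0)) u]
  unfold chK aR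
  rw [Finsupp.sum_mapRange_index (by intro h; simp), Finsupp.sum, Finset.mul_sum]
  refine Finset.sum_congr rfl fun h _ => ?_
  rw [cls_smul (hd h) (gh_evK (gkm_LB h.2) 0) u, cls_LB h.2, evK_aug]
  ring

theorem LR_add (z z' : D.KR) (p : D.W) : D.LR (z + z') p = D.LR z p + D.LR z' p := by
  unfold LR
  rw [Finsupp.sum_add_index' (fun h => by simp) (fun h a b => by ring)]

theorem LR_sum {κ : Type*} (s : Finset κ) (z : κ → D.KR) (p : D.W) :
    D.LR (∑ i ∈ s, z i) p = ∑ i ∈ s, D.LR (z i) p := by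
  classical
  induction s using Finset.induction_on with
  | empty => simp [LR]
  | insert a s ha ih => rw [Finset.sum_insert ha, Finset.sum_insert ha, LR_add, ih]

theorem LR_single (h : {h : Fin r → ℂ // D.IsWt h}) (a : RH r) (p : D.W) :
    D.LR (Finsupp.single h a) p = a * D.LB h.1 p := by
  unfold LR
  rw [Finsupp.sum_single_index (by simp)]

/-- every combination of line bundles is given by an element of `KR` -/
theorem lin_LR {f : D.W → RH r} (hf : D.Lin f) : ∃ z : D.KR, ∀ p, f p = D.LR z p := by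
  obtain ⟨n, h, a, hh, hf⟩ := hf
  let z : Fin n → D.KR := fun k =>
    Finsupp.single (⟨h k, hh k⟩ : {h : Fin r → ℂ // D.IsWt h}) (a k)
  refine ⟨∑ k, z k, fun p => ?_⟩
  rw [hf p, LR_sum]
  refine Finset.sum_congr rfl fun k _ => ?_
  exact (LR_single (⟨h k, hh k⟩ : {h : Fin r → ℂ // D.IsWt h}) (a k) p).symm

/-- a combination of line bundles which represents `B_w` -/
noncomputable def zB (w : D.W) : D.KR := (lin_LR (isB_Bk w).lin).choose

theorem zB_spec (w p : D.W) : D.Bk w p = D.LR (zB w) p := (lin_LR (isB_Bk w).lin).choose_spec p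

/-- the class `B_w` -/
noncomputable def bB (w : D.W) : D.KB := aR (zB w)

theorem cls_Bk (w u : D.W) : D.cls (fun p y => evK y (D.Bk w p)) 0 u =
    (2 * Real.pi * Complex.I) ^ D.len u * D.chK (bB w) u := by
  have h1 : (fun (p : D.W) (y : Fin r → ℂ) => evK y (D.Bk w p)) =
      fun p y => evK y (D.LR (zB w) p) := by
    funext p y
    rw [zB_spec]
  rw [h1, cls_LR]
  rfl

theorem chiM_eul (i j : D.W) : evK 0 (D.chiM i j) = D.eul (bB i) (bB j) := by
  refine eul_aR ?_
  have h1 := isChi_chiM (D := D) i j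
  have h2 : (fun p => sK (D.Bk i p) * D.Bk j p) = fun p => sK (D.LR (zB i) p) * D.LR (zB j) p := by
    funext p
    rw [zB_spec, zB_spec]
  rwa [h2] at h1

/-- the class of an integral combination of line bundles -/
noncomputable def iR (x : D.KB) : D.KR := x.mapRange (fun m : ℤ => (m : RH r)) Int.cast_zero

theorem aR_iR (x : D.KB) : aR (iR x) = x := by
  unfold aR iR
  ext h
  rw [Finsupp.mapRange_apply, Finsupp.mapRange_apply]
  exact aug_eq (by rw [map_intCast])

/-- Every integral combination of line bundles is an integral combination of the `B_w`. -/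
theorem exists_coeff (x : D.KB) : ∃ c : D.W → RH r, ∀ p, D.LR (iR x) p = ∑ w, c w * D.Bk w p :=
  gkm_basis (gkm_LR (iR x))

/-- the coefficients -/
noncomputable def cR (x : D.KB) : D.W → RH r := (exists_coeff x).choose

theorem cR_spec (x : D.KB) (p : D.W) : D.LR (iR x) p = ∑ w, cR x w * D.Bk w p :=
  (exists_coeff x).choose_spec p

/-- the coefficients -/
noncomputable def cZ (x : D.KB) (w : D.W) : ℤ := aug (cR x w)

theorem chK_cZ (x : D.KB) (u : D.W) : D.chK x u = ∑ w, (cZ x w : ℂ) * D.chK (bB w) u := by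
  have h1 := cls_LR (iR x) u
  rw [aR_iR] at h1
  have h2 : (fun (p : D.W) (y : Fin r → ℂ) => evK y (D.LR (iR x) p)) =
      fun p y => ∑ w, evK y (cR x w) * evK y (D.Bk w p) := by
    funext p y
    rw [cR_spec, map_sum]
    exact Finset.sum_congr rfl fun w _ => map_mul _ _ _
  have hd : ∀ w, ∀ᶠ y in 𝓝 (0 : Fin r → ℂ), DifferentiableAt ℂ (fun y => evK y (cR x w)) y :=
    fun w => Eventually.of_forall fun y => evK_diff (cR x w) y
  rw [h2, cls_sum Finset.univ (H := fun w p y => evK y (cR x w) * evK y (D.Bk w p))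
    (fun w _ => gh_mul (gh_const (hd w)) (gh_evK (isB_Bk w).gkm 0)) u] at h1
  have h3 : ∀ w, D.cls (fun p y => evK y (cR x w) * evK y (D.Bk w p)) 0 u =
      (2 * Real.pi * Complex.I) ^ D.len u * ((cZ x w : ℂ) * D.chK (bB w) u) := by
    intro w
    rw [cls_smul (hd w) (gh_evK (isB_Bk w).gkm 0) u, cls_Bk, evK_aug]
    unfold cZ
    ring
  rw [Finset.sum_congr rfl fun w _ => h3 w, ← Finset.mul_sum] at h1
  have h4 : (2 * Real.pi * Complex.I : ℂ) ^ D.len u ≠ 0 := pow_ne_zero _ Complex.two_pi_I_ne_zero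
  exact (mul_left_cancel₀ h4 h1).symm

theorem eul_cZ (x y : D.KB) :
    D.eul x y = ∑ w, ∑ w', (cZ x w : ℂ) * (cZ y w' : ℂ) * D.eul (bB w) (bB w') := by
  have hg : D.GKM fun p => sK (D.LR (iR x) p) * D.LR (iR y) p :=
    gkm_mul (gkm_sK (gkm_LR _)) (gkm_LR _)
  obtain ⟨F, hF⟩ := exists_chi hg
  have h1 := eul_aR hF
  rw [aR_iR, aR_iR] at h1
  rw [← h1]
  have h2 : (fun p => sK (D.LR (iR x) p) * D.LR (iR y) p) = fun p => ∑ w, ∑ w',
      (sK (cR x w) * cR y w') * (sK (D.Bk w p) * D.Bk w' p) := by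
    funext p
    rw [cR_spec, cR_spec, map_sum, Finset.sum_mul_sum]
    refine Finset.sum_congr rfl fun w _ => Finset.sum_congr rfl fun w' _ => ?_
    rw [map_mul]
    ring
  rw [h2] at hF
  have h3 : D.IsChi (fun p => ∑ w, ∑ w', (sK (cR x w) * cR y w') * (sK (D.Bk w p) * D.Bk w' p))
      (∑ w, ∑ w', (sK (cR x w) * cR y w') * D.chiM w w') :=
    isChi_sum _ fun w _ => isChi_sum _ fun w' _ => isChi_mul _ (isChi_chiM w w')
  rw [chi_unique hF h3, map_sum]
  refine Finset.sum_congr rfl fun w _ => ?_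
  rw [map_sum]
  refine Finset.sum_congr rfl fun w' _ => ?_
  rw [map_mul, map_mul, evK_sK, neg_zero, evK_aug, evK_aug, chiM_eul]
  rfl

end Pool.Agent.FLG.RS
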