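import Pool.Agent.FLG.K.GamA

/-!
# FLG-Z-Gam: the `Γ`-class as an exponential

`Gop t` is the operator of multiplication by `e^{t + πi c_1} ∏_{a > 0} Γ(1 - a)`, that is,
`exp (t + πi c_1 + ∑_{a > 0} log Γ(1 - a))`.
-/

set_option autoImplicit false

open scoped BigOperators Topology
open Filter
open Pool.Agent.DST.TE Pool.Agent.DSTJ.Spec

namespace Pool.Agent.FLG.RS

variable {r : ℕ} {D : RS r}

/-- `F(p⁻¹ y)` -/
noncomputable def ft (D : RS r) (F : (Fin r → ℂ) → ℂ) (p : D.W) (y : Fin r → ℂ) : ℂ :=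
  F (D.yt p⁻¹ y)

private theorem yt_diffG (w : D.W) : Differentiable ℂ fun y : Fin r → ℂ => D.yt w y := by
  rw [differentiable_pi]
  intro j
  unfold yt
  fun_prop

theorem gh_ft {F : (Fin r → ℂ) → ℂ} (hF : ∀ᶠ x in 𝓝 (0 : Fin r → ℂ), DifferentiableAt ℂ F x) :
    D.GH (D.ft F) 0 where
  diff := by
    intro p
    have h1 : Tendsto (fun y => D.yt p⁻¹ y) (𝓝 (0 : Fin r → ℂ)) (𝓝 0) := by
      have := (yt_diffG (D := D) p⁻¹).continuous.tendsto 0
      rwa [D.yt_zero] at this
    filter_upwards [h1.eventually hF] with y hy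
    exact hy.comp y (yt_diffG (D := D) p⁻¹ y)
  wall := by
    intro b hb _ p
    refine Eventually.of_forall fun y hy => ?_
    show F (D.yt (D.refl b * p)⁻¹ y) = F (D.yt p⁻¹ y)
    rw [mul_inv_rev, refl_inv hb, D.yt_mul, yt_refl hb, hy, zero_smul, sub_zero]

private theorem mop_apply (H : D.W → (Fin r → ℂ) → ℂ) (y : Fin r → ℂ) (u a : D.W) :
    D.mop H y u a = D.cls (fun p y => H p y * D.Rm y p a) y u := rfl

/-- the value at `0` depends only on the germ -/
theorem mop_ext {H : D.W → (Fin r → ℂ) → ℂ} (hH : D.GH H 0)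
    {A : (Fin r → ℂ) → Matrix D.W D.W ℂ} (hA : ∀ u a, ContinuousAt (fun y => A y u a) 0)
    (h : ∀ᶠ y in 𝓝 (0 : Fin r → ℂ), (∀ a ∈ D.Φ, pr a y ≠ 0) →
      D.Rm y * A y = Matrix.diagonal (fun p => H p y) * D.Rm y) :
    D.mop H 0 = A 0 := by
  ext u a
  refine cls_ext D (F := fun y => D.mop H y u a) (G := fun y => A y u a) ?_ (hA u a) ?_
  · exact (cls_diff (gh_mul hH (gh_Rm a 0)) u).self_of_nhds.continuousAt
  · filter_upwards [h] with y hy hreg
    have h1 := hy hreg
    have hdet : IsUnit (D.Rm y).det := isUnit_iff_ne_zero.2 (Rm_det_ne hreg)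
    have h2 : A y = (D.Rm y)⁻¹ * (Matrix.diagonal (fun p => H p y) * D.Rm y) := by
      rw [← h1, ← Matrix.mul_assoc, Matrix.nonsing_inv_mul _ hdet, Matrix.one_mul]
    rw [mop_apply, cls_eq _ hreg, h2, Matrix.mul_apply]
    refine Finset.sum_congr rfl fun p _ => ?_
    rw [Matrix.diagonal_mul]

theorem mop_congr {H K : D.W → (Fin r → ℂ) → ℂ} (hH : D.GH H 0) (hK : D.GH K 0)
    (h : ∀ᶠ y in 𝓝 (0 : Fin r → ℂ), ∀ p, H p y = K p y) : D.mop H 0 = D.mop K 0 := by
  ext u a
  refine cls_ext D (F := fun y => D.mop H y u a) (G := fun y => D.mop K y u a)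
    (cls_diff (gh_mul hH (gh_Rm a 0)) u).self_of_nhds.continuousAt
    (cls_diff (gh_mul hK (gh_Rm a 0)) u).self_of_nhds.continuousAt ?_
  filter_upwards [h] with y hy hreg
  rw [mop_apply, mop_apply, cls_eq _ hreg, cls_eq _ hreg]
  refine Finset.sum_congr rfl fun p _ => ?_
  rw [hy p]

theorem mop_mul {H K : D.W → (Fin r → ℂ) → ℂ} (hH : D.GH H 0) (hK : D.GH K 0) :
    D.mop (fun p y => H p y * K p y) 0 = D.mop H 0 * D.mop K 0 := by
  ext u a
  have h1 := congrFun (cls_mul hH (gh_mul hK (gh_Rm a 0))) u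
  have h2 : (fun (p : D.W) (y : Fin r → ℂ) => H p y * (K p y * D.Rm y p a)) =
      fun p y => H p y * K p y * D.Rm y p a := by
    funext p y
    ring
  rw [h2] at h1
  rw [mop_apply, h1, Matrix.mul_apply]
  rfl

theorem mop_sum {ι : Type*} (s : Finset ι) {H : ι → D.W → (Fin r → ℂ) → ℂ}
    (hH : ∀ i ∈ s, D.GH (H i) 0) :
    D.mop (fun p y => ∑ i ∈ s, H i p y) 0 = ∑ i ∈ s, D.mop (H i) 0 := by
  ext u a
  have h1 := cls_sum s (H := fun i p y => H i p y * D.Rm y p a)
    (fun i hi => gh_mul (hH i hi) (gh_Rm a 0)) u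
  have h2 : (fun (p : D.W) (y : Fin r → ℂ) => ∑ i ∈ s, H i p y * D.Rm y p a) =
      fun p y => (∑ i ∈ s, H i p y) * D.Rm y p a := by
    funext p y
    rw [Finset.sum_mul]
  rw [h2] at h1
  rw [mop_apply, h1, Matrix.sum_apply]
  rfl

theorem mop_add {H K : D.W → (Fin r → ℂ) → ℂ} (hH : D.GH H 0) (hK : D.GH K 0) :
    D.mop (fun p y => H p y + K p y) 0 = D.mop H 0 + D.mop K 0 := by
  have h1 := mop_sum (D := D) Finset.univ (H := fun i : Bool => if i then H else K) (by
    intro i _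
    cases i
    · exact hK
    · exact hH)
  simpa using h1

/-- the linear form `-h` -/
private theorem lin_eq (h : Fin r → ℂ) (p : D.W) (y : Fin r → ℂ) :
    D.ft (fun x => -∑ j, h j * x j) p y = -D.hv h p y := rfl

private theorem lin_diff (h : Fin r → ℂ) :
    Differentiable ℂ fun x : Fin r → ℂ => -∑ j, h j * x j := by
  fun_prop

private theorem C0_cont (h : Fin r → ℂ) : Continuous fun y : Fin r → ℂ => D.C0 h y := by
  refine continuous_matrix fun u v => ?_
  unfold C0 hv yt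
  by_cases huv : u = v
  · subst huv
    simp only [Matrix.sub_apply, Matrix.diagonal_apply_eq]
    fun_prop
  · simp only [Matrix.sub_apply, Matrix.diagonal_apply_ne _ huv]
    fun_prop

theorem mop_pow {H : D.W → (Fin r → ℂ) → ℂ} (hH : D.GH H 0) (n : ℕ) :
    D.mop (fun p y => H p y ^ n) 0 = D.mop H 0 ^ n := by
  have hone : D.GH (fun _ _ => (1 : ℂ)) 0 :=
    gh_const (Eventually.of_forall fun y => differentiableAt_const _)
  induction n with
  | zero =>
    rw [pow_zero]
    refine mop_ext (A := fun _ => 1) ?_ (fun u a => continuousAt_const) ?_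
    · simpa using hone
    · refine Eventually.of_forall fun y _ => ?_
      simp only [pow_zero]
      rw [Matrix.mul_one]
      have : (Matrix.diagonal fun _ : D.W => (1 : ℂ)) = 1 := Matrix.diagonal_one
      rw [this, Matrix.one_mul]
  | succ n ih =>
    have hn : ∀ m : ℕ, D.GH (fun p y => H p y ^ m) 0 := by
      intro m
      induction m with
      | zero => simpa using hone
      | succ m ihm =>
        simp only [pow_succ]
        exact gh_mul ihm hH
    simp only [pow_succ]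
    rw [mop_mul (hn n) hH, ih]

theorem mop_lin (h : Fin r → ℂ) :
    D.mop (D.ft fun x => -∑ j, h j * x j) 0 = D.E0 (D.ch h) := by
  rw [← C0_zero]
  refine mop_ext (A := fun y => D.C0 h y) (gh_ft (Eventually.of_forall (lin_diff h))) ?_ ?_
  · intro u a
    exact ((continuous_apply a).comp ((continuous_apply u).comp (C0_cont (D := D) h))).continuousAt
  · refine Eventually.of_forall fun y _ => ?_
    exact Rm_C0 h y

/-- the linear form `-h` -/
private noncomputable def ln (h x : Fin r → ℂ) : ℂ := -∑ j, h j * x j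

private theorem ln_diff (h : Fin r → ℂ) : Differentiable ℂ (ln h) := lin_diff h

private theorem ln_zero (h : Fin r → ℂ) : ln h 0 = 0 := by
  simp [ln]

/-- the coefficients of `log Γ(1 - x)` -/
noncomputable def gco (k : ℕ) : ℂ :=
  iteratedDeriv k (fun x : ℂ => Complex.log (Complex.Gamma (1 - x))) 0 / k.factorial

/-- a root as a divisor class -/
def ca {r : ℕ} (a : Fin r → ℤ) : Fin r → ℂ := fun j => (a j : ℂ)

/-- `t + πi c_1 + ∑_{a > 0} log Γ(1 - a)` up to degree `dim` -/
private noncomputable def gA (D : RS r) (t x : Fin r → ℂ) : ℂ :=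
  ln t x + Real.pi * Complex.I * ln D.ctr x +
    ∑ k ∈ Finset.Icc 1 D.dm, gco k * ∑ a ∈ D.Pos, ln (ca a) x ^ k

private noncomputable def gX (D : RS r) (t y : Fin r → ℂ) : Matrix D.W D.W ℂ :=
  D.C0 t y + (Real.pi * Complex.I : ℂ) • D.C0 D.ctr y +
    ∑ k ∈ Finset.Icc 1 D.dm, gco k • ∑ a ∈ D.Pos, D.C0 (ca a) y ^ k

private theorem inter_pow {R X : Matrix D.W D.W ℂ} {d : D.W → ℂ}
    (h : R * X = Matrix.diagonal d * R) (k : ℕ) :
    R * X ^ k = Matrix.diagonal (fun p => d p ^ k) * R := by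
  induction k with
  | zero =>
    have h1 : (Matrix.diagonal fun p : D.W => d p ^ 0) = 1 := by
      simp only [pow_zero]
      exact Matrix.diagonal_one
    rw [h1, pow_zero, Matrix.mul_one, Matrix.one_mul]
  | succ k ih =>
    rw [pow_succ, ← Matrix.mul_assoc, ih, Matrix.mul_assoc, h, ← Matrix.mul_assoc,
      Matrix.diagonal_mul_diagonal]
    rfl

private theorem inter_exp {R X : Matrix D.W D.W ℂ} {d : D.W → ℂ} (hR : IsUnit R.det)
    (h : R * X = Matrix.diagonal d * R) :
    R * NormedSpace.exp X = Matrix.diagonal (fun p => Complex.exp (d p)) * R := by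
  have hu : IsUnit R := (Matrix.isUnit_iff_isUnit_det R).2 hR
  have h1 : X = R⁻¹ * Matrix.diagonal d * R := by
    rw [Matrix.mul_assoc, ← h, ← Matrix.mul_assoc, Matrix.nonsing_inv_mul _ hR, Matrix.one_mul]
  rw [h1, Matrix.exp_conj' R _ hu, ← Matrix.mul_assoc, ← Matrix.mul_assoc,
    Matrix.mul_nonsing_inv _ hR, Matrix.one_mul, Matrix.exp_diagonal]
  congr 2
  funext p
  rw [Pi.coe_exp, Complex.exp_eq_exp_ℂ]

private theorem gX_inter (t y : Fin r → ℂ) :
    D.Rm y * gX D t y = Matrix.diagonal (fun p => gA D t (D.yt p⁻¹ y)) * D.Rm y := by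
  have hC : ∀ h : Fin r → ℂ, D.Rm y * D.C0 h y =
      Matrix.diagonal (fun p => ln h (D.yt p⁻¹ y)) * D.Rm y := fun h => Rm_C0 h y
  unfold gX
  rw [Matrix.mul_add, Matrix.mul_add, hC, Matrix.mul_smul, hC, Finset.mul_sum]
  have h1 : ∀ k, D.Rm y * (gco k • ∑ a ∈ D.Pos, D.C0 (ca a) y ^ k) =
      Matrix.diagonal (fun p => gco k * ∑ a ∈ D.Pos, ln (ca a) (D.yt p⁻¹ y) ^ k) * D.Rm y := by
    intro k
    rw [Matrix.mul_smul, Finset.mul_sum]
    ext p v
    rw [Matrix.smul_apply, Matrix.sum_apply, Matrix.diagonal_mul, smul_eq_mul, mul_assoc,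
      Finset.sum_mul]
    congr 1
    refine Finset.sum_congr rfl fun a _ => ?_
    rw [inter_pow (hC (ca a)) k, Matrix.diagonal_mul]
  ext p v
  rw [Matrix.add_apply, Matrix.add_apply, Matrix.smul_apply, Matrix.sum_apply]
  simp only [h1, Matrix.diagonal_mul]
  unfold gA
  rw [add_mul, add_mul, Finset.sum_mul, smul_eq_mul]
  ring

private theorem gA_diff (t : Fin r → ℂ) : Differentiable ℂ (gA D t) := by
  unfold gA
  refine Differentiable.add ((ln_diff t).add ((ln_diff _).const_mul _)) ?_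
  refine Differentiable.fun_sum fun k _ => Differentiable.const_mul ?_ _
  exact Differentiable.fun_sum fun a _ => (ln_diff _).pow k

private theorem gX_cont (t : Fin r → ℂ) : Continuous (gX D t) := by
  unfold gX
  refine ((C0_cont (D := D) t).add
    (Continuous.const_smul (C0_cont (D := D) D.ctr) (Real.pi * Complex.I : ℂ))).add ?_
  refine continuous_finsetSum _ fun k _ => ?_
  have h1 : Continuous fun y : Fin r → ℂ => ∑ a ∈ D.Pos, D.C0 (ca a) y ^ k :=
    continuous_finsetSum _ fun a _ => (C0_cont (D := D) _).pow k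
  exact Continuous.const_smul h1 (gco k)

private theorem mop_gA (t : Fin r → ℂ) :
    D.mop (D.ft fun x => Complex.exp (gA D t x)) 0 = NormedSpace.exp (gX D t 0) := by
  refine mop_ext (A := fun y => NormedSpace.exp (gX D t y))
    (gh_ft (Eventually.of_forall fun x => ((gA_diff t).cexp) x)) ?_ ?_
  · intro u a
    let _ : NormedRing (Matrix D.W D.W ℂ) := Matrix.linftyOpNormedRing
    let _ : NormedAlgebra ℂ (Matrix D.W D.W ℂ) := Matrix.linftyOpNormedAlgebra
    let _ : NormedAlgebra ℚ (Matrix D.W D.W ℂ) := NormedAlgebra.restrictScalars ℚ ℂ _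
    have h1 : Continuous fun y => NormedSpace.exp (gX D t y) :=
      NormedSpace.exp_continuous.comp (gX_cont t)
    exact ((continuous_apply a).comp ((continuous_apply u).comp h1)).continuousAt
  · refine Eventually.of_forall fun y hy => ?_
    exact inter_exp (isUnit_iff_ne_zero.2 (Rm_det_ne hy)) (gX_inter t y)

private theorem E0_pow_ne {c : (Fin r → ℤ) → ℂ} (k : ℕ) {u v : D.W} (h : (D.E0 c ^ k) u v ≠ 0) :
    D.len u = D.len v + k := by
  induction k generalizing u with
  | zero =>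
    rw [pow_zero] at h
    by_cases huv : u = v
    · rw [huv]; rfl
    · exact absurd (Matrix.one_apply_ne huv) h
  | succ k ih =>
    rw [pow_succ', Matrix.mul_apply] at h
    obtain ⟨w, -, hw⟩ := Finset.exists_ne_zero_of_sum_ne_zero h
    have h1 := E0_ne (left_ne_zero_of_mul hw)
    have h2 := ih (right_ne_zero_of_mul hw)
    omega

private theorem E0_nil (c : (Fin r → ℤ) → ℂ) : D.E0 c ^ (D.dm + 1) = 0 := by
  ext u v
  by_contra h
  have h1 := E0_pow_ne _ h
  have h2 := len_le_dm u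
  omega

/-- `log Γ(1 - x)` -/
private noncomputable def lG (x : ℂ) : ℂ := Complex.log (Complex.Gamma (1 - x))

private theorem gamma_near : ∀ᶠ x in 𝓝 (0 : ℂ), DifferentiableAt ℂ (fun x => Complex.Gamma (1 - x)) x ∧
    Complex.Gamma (1 - x) ∈ Complex.slitPlane := by
  have h0 : ∀ᶠ x in 𝓝 (0 : ℂ), DifferentiableAt ℂ (fun x => Complex.Gamma (1 - x)) x := by
    have h1 : ∀ᶠ x in 𝓝 (0 : ℂ), 0 < (1 - x).re := by
      have : ContinuousAt (fun x : ℂ => (1 - x).re) 0 := by fun_prop
      exact this.eventually (lt_mem_nhds (by simp))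
    filter_upwards [h1] with x hx
    refine (Complex.differentiableAt_Gamma _ fun m h => ?_).comp x (by fun_prop)
    rw [h] at hx
    simp only [Complex.neg_re, Complex.natCast_re] at hx
    have := m.cast_nonneg (α := ℝ)
    linarith
  refine h0.and ?_
  have h2 : ContinuousAt (fun x => Complex.Gamma (1 - x)) 0 := h0.self_of_nhds.continuousAt
  refine h2.eventually (Complex.isOpen_slitPlane.mem_nhds ?_)
  simp

private theorem lG_an : AnalyticAt ℂ lG 0 := by
  rw [Complex.analyticAt_iff_eventually_differentiableAt]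
  filter_upwards [gamma_near] with x hx
  exact hx.1.clog hx.2

private theorem lG_taylor (m : ℕ) : ∃ q : ℂ → ℂ, AnalyticAt ℂ q 0 ∧
    ∀ᶠ x in 𝓝 (0 : ℂ), lG x = (∑ k ∈ Finset.Icc 1 m, gco k * x ^ k) + x ^ (m + 1) * q x := by
  obtain ⟨q, hq, h⟩ := lG_an.exists_eventuallyEq_sum_add_pow_mul (m + 1)
  refine ⟨q, hq, ?_⟩
  filter_upwards [h] with x hx
  rw [hx, smul_eq_mul]
  congr 1
  rw [Finset.sum_range_succ']
  have h0 : iteratedDeriv 0 lG 0 = 0 := by
    rw [iteratedDeriv_zero]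
    show Complex.log (Complex.Gamma (1 - 0)) = 0
    rw [sub_zero, Complex.Gamma_one, Complex.log_one]
  rw [h0, smul_zero, add_zero, Finset.range_eq_Ico, Finset.sum_Ico_add' (fun k => (x ^ k / (k.factorial : ℂ)) •
    iteratedDeriv k lG 0) 0 m 1]
  have h1 : Finset.Ico (0 + 1) (m + 1) = Finset.Icc 1 m := by
    ext k
    simp only [Finset.mem_Ico, Finset.mem_Icc]
    omega
  rw [h1]
  refine Finset.sum_congr rfl fun k _ => ?_
  unfold gco
  rw [smul_eq_mul]
  show _ = iteratedDeriv k lG 0 / _ * _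
  ring

private theorem pr_ln (a : Fin r → ℤ) (x : Fin r → ℂ) : pr a x = -ln (ca a) x := by
  unfold ln ca pr
  rw [neg_neg]

private theorem gg_ft (t : Fin r → ℂ) : D.gg t = D.ft fun x =>
    Complex.exp (ln t x + Real.pi * Complex.I * ln D.ctr x) *
      ∏ a ∈ D.Pos, Complex.Gamma (1 - ln (ca a) x) := by
  funext p y
  unfold gg gam ft
  show _ = Complex.exp (ln t (D.yt p⁻¹ y) + Real.pi * Complex.I * ln D.ctr (D.yt p⁻¹ y)) *
      ∏ a ∈ D.Pos, Complex.Gamma (1 - ln (ca a) (D.yt p⁻¹ y))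
  rw [Complex.exp_add, ← mul_assoc]
  have h1 : pr (-D.rt p D.tr) y = ln D.ctr (D.yt p⁻¹ y) := by
    have h2 : pr (-D.rt p D.tr) y = -pr (D.rt p D.tr) y := by
      simp only [pr, Pi.neg_apply, Int.cast_neg, neg_mul, Finset.sum_neg_distrib]
    rw [h2, D.pr_rt, pr_ln, neg_neg]
    rfl
  have h2 : -D.hv t p y = ln t (D.yt p⁻¹ y) := rfl
  have h3 : ∀ a, Complex.Gamma (1 + pr (D.rt p a) y) =
      Complex.Gamma (1 - ln (ca a) (D.yt p⁻¹ y)) := by
    intro a
    rw [D.pr_rt, pr_ln, ← sub_eq_add_neg]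
  rw [h1, h2, Finset.prod_congr rfl fun a _ => h3 a]
  ring

/-- The operator of multiplication by `e^{t + πi c_1} Γ̂` is
`exp (t + πi c_1 + ∑_{a > 0} log Γ(1 - a))`. -/
theorem Gop_exp (D : RS r) (t : Fin r → ℂ) : D.Gop t = NormedSpace.exp (D.E0 (D.ch t) +
    (Real.pi * Complex.I : ℂ) • D.E0 (D.ch D.ctr) +
    ∑ k ∈ Finset.Icc 1 D.dm, gco k • ∑ a ∈ D.Pos, D.E0 (D.ch (ca a)) ^ k) := by
  obtain ⟨q, hq, hT⟩ := lG_taylor D.dm
  have hl : ∀ h : Fin r → ℂ, Tendsto (ln h) (𝓝 0) (𝓝 0) := by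
    intro h
    have := (ln_diff h).continuous.tendsto 0
    rwa [ln_zero] at this
  have hq1 : ∀ᶠ x in 𝓝 (0 : ℂ), DifferentiableAt ℂ q x :=
    (Complex.analyticAt_iff_eventually_differentiableAt).1 hq
  set E1 : ℂ → ℂ := dslope Complex.exp 0 with hE1
  have hE1d : Differentiable ℂ E1 := by
    rw [← differentiableOn_univ, hE1,
      Complex.differentiableOn_dslope (Filter.univ_mem)]
    exact Complex.differentiable_exp.differentiableOn
  have hE1e : ∀ s, Complex.exp s = 1 + s * E1 s := by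
    intro s
    have := sub_smul_dslope Complex.exp 0 s
    rw [sub_zero, smul_eq_mul, Complex.exp_zero] at this
    rw [hE1, this]
    ring
  set B : (Fin r → ℂ) → ℂ := fun x => ∑ a ∈ D.Pos, ln (ca a) x ^ (D.dm + 1) * q (ln (ca a) x)
    with hB
  set K : (Fin r → ℤ) → (Fin r → ℂ) → ℂ := fun a x =>
    q (ln (ca a) x) * Complex.exp (gA D t x) * E1 (B x) with hK
  have hqd : ∀ a : Fin r → ℤ, ∀ᶠ x in 𝓝 (0 : Fin r → ℂ),
      DifferentiableAt ℂ (fun x => q (ln (ca a) x)) x := by
    intro a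
    filter_upwards [(hl (ca a)).eventually hq1] with x hx
    exact hx.comp x (ln_diff _ x)
  have hqd' : ∀ᶠ x in 𝓝 (0 : Fin r → ℂ), ∀ a ∈ D.Pos,
      DifferentiableAt ℂ (fun x => q (ln (ca a) x)) x :=
    (Filter.eventually_all_finset D.Pos).2 fun a _ => hqd a
  have hBd : ∀ᶠ x in 𝓝 (0 : Fin r → ℂ), DifferentiableAt ℂ B x := by
    filter_upwards [hqd'] with x hx
    rw [hB]
    refine DifferentiableAt.fun_sum fun a ha => ?_
    exact ((ln_diff _ x).pow _).mul (hx a ha)
  have hKd : ∀ a, ∀ᶠ x in 𝓝 (0 : Fin r → ℂ), DifferentiableAt ℂ (K a) x := by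
    intro a
    filter_upwards [hqd a, hBd] with x hx hBx
    exact (hx.mul ((gA_diff t).cexp x)).mul ((hE1d _).comp x hBx)
  have hmain : ∀ᶠ x in 𝓝 (0 : Fin r → ℂ),
      Complex.exp (ln t x + Real.pi * Complex.I * ln D.ctr x) *
        ∏ a ∈ D.Pos, Complex.Gamma (1 - ln (ca a) x) =
      Complex.exp (gA D t x) + ∑ a ∈ D.Pos, ln (ca a) x ^ (D.dm + 1) * K a x := by
    have h1 : ∀ᶠ x in 𝓝 (0 : Fin r → ℂ), ∀ a ∈ D.Pos,
        (lG (ln (ca a) x) = (∑ k ∈ Finset.Icc 1 D.dm, gco k * ln (ca a) x ^ k) +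
          ln (ca a) x ^ (D.dm + 1) * q (ln (ca a) x)) ∧
        Complex.Gamma (1 - ln (ca a) x) ∈ Complex.slitPlane :=
      (Filter.eventually_all_finset D.Pos).2 fun a _ =>
        ((hl (ca a)).eventually hT).and
          (((hl (ca a)).eventually gamma_near).mono fun x hx => hx.2)
    filter_upwards [h1] with x hx
    have h2 : ∏ a ∈ D.Pos, Complex.Gamma (1 - ln (ca a) x) =
        Complex.exp (∑ a ∈ D.Pos, lG (ln (ca a) x)) := by
      rw [Complex.exp_sum]
      refine Finset.prod_congr rfl fun a ha => ?_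
      exact (Complex.exp_log (Complex.slitPlane_ne_zero (hx a ha).2)).symm
    have h3 : ∑ a ∈ D.Pos, lG (ln (ca a) x) =
        (∑ k ∈ Finset.Icc 1 D.dm, gco k * ∑ a ∈ D.Pos, ln (ca a) x ^ k) + B x := by
      rw [Finset.sum_congr rfl fun a ha => (hx a ha).1, Finset.sum_add_distrib, Finset.sum_comm]
      congr 1
      exact Finset.sum_congr rfl fun k _ => (Finset.mul_sum _ _ _).symm
    rw [h2, h3, ← Complex.exp_add, ← add_assoc]
    show Complex.exp (gA D t x + B x) = _
    rw [Complex.exp_add, hE1e (B x), mul_add, mul_one]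
    congr 1
    have h4 : Complex.exp (gA D t x) * (B x * E1 (B x)) =
        B x * (Complex.exp (gA D t x) * E1 (B x)) := by ring
    rw [h4]
    conv_lhs => rw [hB]
    simp only []
    rw [Finset.sum_mul]
    refine Finset.sum_congr rfl fun a _ => ?_
    rw [hK]
    ring
  have hKg : ∀ a, D.GH (fun p y => D.ft (ln (ca a)) p y ^ (D.dm + 1) * D.ft (K a) p y) 0 := by
    intro a
    have h1 := gh_ft (D := D) (F := fun x => ln (ca a) x ^ (D.dm + 1) * K a x) (by
      filter_upwards [hKd a] with x hx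
      exact ((ln_diff _ x).pow _).mul hx)
    exact h1
  have hzero : ∀ a, D.mop (fun p y => D.ft (ln (ca a)) p y ^ (D.dm + 1) * D.ft (K a) p y) 0 = 0 := by
    intro a
    have hg1 : D.GH (D.ft (ln (ca a))) 0 := gh_ft (Eventually.of_forall (ln_diff _))
    have hg2 : D.GH (fun p y => D.ft (ln (ca a)) p y ^ (D.dm + 1)) 0 :=
      gh_ft (F := fun x => ln (ca a) x ^ (D.dm + 1)) (Eventually.of_forall ((ln_diff _).pow _))
    rw [mop_mul hg2 (gh_ft (hKd a)), mop_pow hg1]
    have h1 : D.mop (D.ft (ln (ca a))) 0 = D.E0 (D.ch (ca a)) := mop_lin (ca a)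
    rw [h1, E0_nil, Matrix.zero_mul]
  have hexp : D.GH (D.ft fun x => Complex.exp (gA D t x)) 0 :=
    gh_ft (Eventually.of_forall fun x => ((gA_diff t).cexp) x)
  unfold Gop
  have h5 : D.mop (D.gg t) 0 = D.mop (fun p y => D.ft (fun x => Complex.exp (gA D t x)) p y +
      ∑ a ∈ D.Pos, D.ft (ln (ca a)) p y ^ (D.dm + 1) * D.ft (K a) p y) 0 := by
    refine mop_congr (gh_gg t ?_) ?_ ?_
    · intro a _ n hn h
      rw [pr_zero_right] at h
      exact hn (by exact_mod_cast h.symm)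
    · have h6 := gh_sum (D := D) (Finset.univ : Finset Bool) (y₀ := 0)
        (H := fun i => if i then D.ft (fun x => Complex.exp (gA D t x)) else
          fun p y => ∑ a ∈ D.Pos, D.ft (ln (ca a)) p y ^ (D.dm + 1) * D.ft (K a) p y) (by
          intro i _
          cases i
          · exact gh_sum _ fun a _ => hKg a
          · exact hexp)
      simpa using h6
    · rw [gg_ft]
      have h7 : ∀ p : D.W, Tendsto (fun y => D.yt p⁻¹ y) (𝓝 (0 : Fin r → ℂ)) (𝓝 0) := by
        intro p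
        have := (yt_diffG (D := D) p⁻¹).continuous.tendsto 0
        rwa [D.yt_zero] at this
      refine eventually_all.2 fun p => ?_
      filter_upwards [(h7 p).eventually hmain] with y hy
      exact hy
  rw [h5, mop_add hexp (gh_sum _ fun a _ => hKg a), mop_sum _ fun a _ => hKg a,
    Finset.sum_eq_zero fun a _ => hzero a, add_zero, mop_gA]
  congr 1
  unfold gX
  simp only [C0_zero]

end Pool.Agent.FLG.RS
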