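import Pool.Agent.FLG.Small

/-!
# FLG-Z-Sub: reindexing of the first structure connection
-/

set_option autoImplicit false

open scoped BigOperators Topology
open Filter

namespace Pool.Agent.FLG

variable {ι κ : Type} [Fintype ι] [DecidableEq ι] [Fintype κ] [DecidableEq κ] {N : ℕ}

/-- reindexing -/
def Small.sub (X : Small κ) (e : ι ≃ κ) : Small ι where
  dim := X.dim
  deg := fun i => X.deg (e i)
  pair := X.pair.submatrix e e
  cup := X.cup.submatrix e e
  mul := X.mul.submatrix e e

omit [Fintype ι] [DecidableEq ι] [Fintype κ] [DecidableEq κ] in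
theorem Small.sub_sub (X : Small κ) (e : ι ≃ κ) : (X.sub e).sub e.symm = X := by
  have h : ∀ A : Matrix κ κ ℂ, (A.submatrix e e).submatrix e.symm e.symm = A := by
    intro A
    ext a b
    simp
  have h' : (fun i => X.deg (e (e.symm i))) = X.deg := by
    funext i
    simp
  cases X
  simp only [Small.sub] at *
  rw [h, h, h, h']

theorem exp_subm (A : Matrix κ κ ℂ) (e : ι ≃ κ) :
    (NormedSpace.exp A).submatrix e e = NormedSpace.exp (A.submatrix e e) := by
  let _ : NormedRing (Matrix κ κ ℂ) := Matrix.linftyOpNormedRing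
  let _ : NormedAlgebra ℂ (Matrix κ κ ℂ) := Matrix.linftyOpNormedAlgebra
  let _ : NormedAlgebra ℚ (Matrix κ κ ℂ) := NormedAlgebra.restrictScalars ℚ ℂ _
  let _ : NormedRing (Matrix ι ι ℂ) := Matrix.linftyOpNormedRing
  let _ : NormedAlgebra ℂ (Matrix ι ι ℂ) := Matrix.linftyOpNormedAlgebra
  let _ : NormedAlgebra ℚ (Matrix ι ι ℂ) := NormedAlgebra.restrictScalars ℚ ℂ _
  exact NormedSpace.map_exp (Matrix.reindexAlgEquiv ℂ ℂ e.symm)
    (continuous_id.matrix_submatrix e e) A

variable (X : Small κ) (e : ι ≃ κ)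

omit [Fintype ι] [Fintype κ] in
theorem theta_sub : (X.sub e).theta = X.theta.submatrix e e := by
  unfold Small.theta
  rw [Matrix.submatrix_diagonal_equiv]
  rfl

omit [Fintype ι] [Fintype κ] in
theorem twist_sub : (X.sub e).twist = X.twist.submatrix e e := by
  unfold Small.twist
  rw [Matrix.submatrix_diagonal_equiv]
  rfl

variable {X}

theorem sol_sub' {μ ν : Type} (f : ν → μ) {Y : ℂ → Matrix κ μ ℂ} (hY : IsSolution X Y) :
    IsSolution (X.sub e) fun w => (Y w).submatrix e f := by
  intro w i j
  have h1 : ((X.sub e).theta - Complex.exp (-w) • (X.sub e).mul) * (Y w).submatrix e f =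
      ((X.theta - Complex.exp (-w) • X.mul) * Y w).submatrix e f := by
    rw [theta_sub, ← Matrix.submatrix_mul_equiv _ _ e e f]
    rfl
  show HasDerivAt (fun w => Y w (e i) (f j))
    ((((X.sub e).theta - Complex.exp (-w) • (X.sub e).mul) * (Y w).submatrix e f) i j) w
  rw [h1]
  exact hY w (e i) (f j)

theorem zSol_subm (𝒮 : ℂ → Matrix κ κ ℂ) (w : ℂ) :
    zSol (X.sub e) (fun z => (𝒮 z).submatrix e e) w = (zSol X 𝒮 w).submatrix e e := by
  unfold zSol
  rw [← Matrix.submatrix_mul_equiv _ _ e e e, ← Matrix.submatrix_mul_equiv _ _ e e e, exp_subm,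
    exp_subm, theta_sub]
  rfl

omit [Fintype ι] [DecidableEq ι] [Fintype κ] [DecidableEq κ] in
theorem asym_subm {u : Fin N → ℂ} {Ψ : Matrix κ (Fin N) ℂ} {α β : ℝ}
    {Y : ℂ → Matrix κ (Fin N) ℂ} (hY : HasAsymptotics u Ψ α β Y) :
    HasAsymptotics u (Ψ.submatrix e id) α β fun w => (Y w).submatrix e id := by
  intro φ hφ
  have h1 := hY φ hφ
  have h2 := ((continuous_id.matrix_submatrix e (id : Fin N → Fin N)).tendsto Ψ).comp h1
  refine h2.congr fun s => ?_
  ext i j
  simp [Matrix.mul_apply]

/-- Monodromy data of the reindexed connection. -/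
noncomputable def reMD (M : MonodromyData X N) : MonodromyData (X.sub e) N where
  u := M.u
  Ψ := M.Ψ.submatrix e id
  eigen := by
    show X.mul.submatrix e e * M.Ψ.submatrix e id = _
    rw [Matrix.submatrix_mul_equiv, M.eigen]
    ext i j
    simp [Matrix.mul_apply]
  normalised := by
    show (M.Ψ.submatrix e id).transpose * X.pair.submatrix e e * M.Ψ.submatrix e id = 1
    rw [Matrix.transpose_submatrix, Matrix.submatrix_mul_equiv, Matrix.submatrix_mul_equiv,
      M.normalised, Matrix.submatrix_id_id]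
  φ := M.φ
  ordered := M.ordered
  ε := M.ε
  ε_pos := M.ε_pos
  Xplus := fun w => (M.Xplus w).submatrix e id
  plus_solution := sol_sub' e id M.plus_solution
  plus_asymptotics := asym_subm e M.plus_asymptotics
  Xminus := fun w => (M.Xminus w).submatrix e id
  minus_solution := sol_sub' e id M.minus_solution
  minus_asymptotics := asym_subm e M.minus_asymptotics
  𝒮 := fun z => (M.𝒮 z).submatrix e e
  calibration_limit := by
    have h1 := ((continuous_id.matrix_submatrix e e).tendsto (1 : Matrix κ κ ℂ)).comp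
      M.calibration_limit
    simp only [id, Matrix.submatrix_one_equiv] at h1
    exact h1
  calibration_solution := by
    have h1 := sol_sub' e e M.calibration_solution
    have h2 : (fun w => (zSol X M.𝒮 w).submatrix e e) =
        zSol (X.sub e) fun z => (M.𝒮 z).submatrix e e := by
      funext w
      rw [zSol_subm]
    rw [h2] at h1
    exact h1
  S := M.S
  stokes := fun w => by
    show (M.Xminus w).submatrix e id = (M.Xplus w).submatrix e id * M.S
    rw [M.stokes w]
    ext i j
    simp [Matrix.mul_apply]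
  C := M.C.submatrix e id
  central := fun w => by
    show (M.Xminus w).submatrix e id = _
    rw [zSol_subm, M.central w, Matrix.submatrix_mul_equiv]

/-- Monodromy data of the original connection. -/
theorem exists_unre (M : MonodromyData (X.sub e) N) : ∃ M' : MonodromyData X N, M'.S = M.S ∧
    (∀ w, M.Xminus w = (M'.Xminus w).submatrix e id) ∧
    (∀ z, M.𝒮 z = (M'.𝒮 z).submatrix e e) ∧ M.C = M'.C.submatrix e id := by
  have key : ∀ Y : Small κ, Y = (X.sub e).sub e.symm → ∃ M' : MonodromyData Y N, M'.S = M.S ∧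
      (∀ w, M.Xminus w = (M'.Xminus w).submatrix e id) ∧
      (∀ z, M.𝒮 z = (M'.𝒮 z).submatrix e e) ∧ M.C = M'.C.submatrix e id := by
    rintro Y rfl
    refine ⟨reMD e.symm M, rfl, fun w => ?_, fun z => ?_, ?_⟩
    · show _ = ((M.Xminus w).submatrix e.symm id).submatrix e id
      ext i j
      simp
    · show _ = ((M.𝒮 z).submatrix e.symm e.symm).submatrix e e
      ext i j
      simp
    · show _ = (M.C.submatrix e.symm id).submatrix e id
      ext i j
      simp
  exact key X (X.sub_sub e).symm

theorem standard_sub {Z : ℂ → Matrix κ κ ℂ} (h : IsStandard X Z) :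
    IsStandard (X.sub e) fun w => (Z w).submatrix e e := by
  obtain ⟨h1, P, h2, h3⟩ := h
  refine ⟨sol_sub' e e h1, fun z => (P z).submatrix e e, fun i j => ?_, fun w => ?_⟩
  · have := h2 (e i) (e j)
    have h4 : (1 : Matrix κ κ ℂ) (e i) (e j) = (1 : Matrix ι ι ℂ) i j := by
      rw [Matrix.one_apply, Matrix.one_apply]
      exact if_congr e.injective.eq_iff rfl rfl
    rw [h4] at this
    exact this
  · show (Z w).submatrix e e = _
    rw [h3 w, ← Matrix.submatrix_mul_equiv _ _ e e e, ← Matrix.submatrix_mul_equiv _ _ e e e,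
      exp_subm, exp_subm, theta_sub]
    rfl

theorem standard_unsub {Z : ℂ → Matrix ι ι ℂ} (h : IsStandard (X.sub e) Z) :
    IsStandard X fun w => (Z w).submatrix e.symm e.symm := by
  have h1 := standard_sub e.symm h
  rwa [X.sub_sub e] at h1

theorem flatPairing_sub {M : MonodromyData (X.sub e) N} {M' : MonodromyData X N}
    (h : ∀ z, M.𝒮 z = (M'.𝒮 z).submatrix e e) (w : ℂ) (a b : κ → ℂ) :
    flatPairing M w (fun i => a (e i)) (fun i => b (e i)) = flatPairing M' w a b := by
  have h1 : ∀ w (a : κ → ℂ), (zSol (X.sub e) M.𝒮 w).mulVec (fun i => a (e i)) =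
      fun i => ((zSol X M'.𝒮 w).mulVec a) (e i) := by
    intro w a
    have h2 : M.𝒮 = fun z => (M'.𝒮 z).submatrix e e := funext h
    rw [h2, zSol_subm]
    funext i
    unfold Matrix.mulVec dotProduct
    exact Equiv.sum_comp e fun j => zSol X M'.𝒮 w (e i) j * a j
  unfold flatPairing
  rw [h1, h1]
  have h3 : (X.sub e).pair.mulVec (fun i => ((zSol X M'.𝒮 w).mulVec b) (e i)) =
      fun i => (X.pair.mulVec ((zSol X M'.𝒮 w).mulVec b)) (e i) := by
    funext i
    exact Equiv.sum_comp e fun j => X.pair (e i) j * ((zSol X M'.𝒮 w).mulVec b) j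
  rw [h3]
  exact Equiv.sum_comp e fun i => (zSol X M'.𝒮 (w + Real.pi * Complex.I)).mulVec a i *
    (X.pair.mulVec ((zSol X M'.𝒮 w).mulVec b)) i

theorem charpoly_sub : (X.sub e).mul.charpoly = X.mul.charpoly := by
  have h1 : (X.sub e).mul = Matrix.reindex e.symm e.symm X.mul := rfl
  rw [h1, Matrix.charpoly_reindex]

theorem admissible_sub {φ : ℝ} (h : IsAdmissible (X.sub e) φ) : IsAdmissible X φ := by
  intro x y hx hy
  refine h x y ?_ ?_
  · rwa [charpoly_sub]
  · rwa [charpoly_sub]

end Pool.Agent.FLG
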