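import Pool.Agent.FLG.Flag
import Pool.Agent.FLG.Model
import Pool.Agent.FLG.LenS
import Pool.Agent.FLG.BDefs

/-!
# FLG-Z-Tr: the model in coordinates
-/

set_option autoImplicit false
set_option linter.unusedSectionVars false

open scoped BigOperators Topology
open Filter
open Pool.Agent.DST.TE

namespace Pool.Agent.FLG

section

variable {ι V V' : Type} [Fintype ι] [AddCommGroup V] [Module ℂ V] [AddCommGroup V'] [Module ℂ V']
  {P : RootPairing ι ℂ V V'} [P.IsCrystallographic] {b : P.Base} {r : ℕ} {D : RS r}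

namespace IsModel

variable (m : IsModel P b D)

/-- the vector with given coordinates -/
noncomputable def bk : (Fin r → ℂ) →ₗ[ℂ] V :=
  Fintype.linearCombination ℂ fun k => P.root (m.e k)

theorem bk_apply (h : Fin r → ℂ) : m.bk h = ∑ k, h k • P.root (m.e k) :=
  Fintype.linearCombination_apply ℂ _ h

theorem bk_surj [P.IsRootSystem] : Function.Surjective m.bk := by
  rw [← LinearMap.range_eq_top, bk, Fintype.range_linearCombination, ← top_le_iff,
    ← RootPairing.IsRootSystem.span_root_eq_top (P := P), Submodule.span_le]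
  rintro _ ⟨i, rfl⟩
  rw [m.root i]
  refine Submodule.sum_mem _ fun k _ => ?_
  rw [← Int.cast_smul_eq_zsmul ℂ]
  exact Submodule.smul_mem _ _ (Submodule.subset_span ⟨k, rfl⟩)

/-- coordinates -/
noncomputable def s [P.IsRootSystem] (h : V) : Fin r → ℂ := (m.bk_surj h).choose

theorem bk_s [P.IsRootSystem] (h : V) : m.bk (m.s h) = h := (m.bk_surj h).choose_spec

theorem v_mem (i : ι) : m.v i ∈ D.Φ := (m.range_v _).2 ⟨i, rfl⟩

theorem pair_eq (k : Fin r) (i : ι) : ((D.co (m.v i) k : ℤ) : ℂ) = P.coroot' i (P.root (m.e k)) := by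
  rw [m.co, P.root_coroot'_eq_pairing]
  exact P.algebraMap_pairingIn ℤ _ _

theorem ch_bk (h : Fin r → ℂ) (i : ι) : D.ch h (m.v i) = P.coroot' i (m.bk h) := by
  rw [bk_apply, map_sum]
  unfold RS.ch
  refine Finset.sum_congr rfl fun k _ => ?_
  rw [map_smul, m.pair_eq, smul_eq_mul]

theorem ch_s [P.IsRootSystem] (h : V) (i : ι) : D.ch (m.s h) (m.v i) = P.coroot' i h := by
  rw [ch_bk, bk_s]

theorem height_eq (i : ι) : b.height i = ∑ k, m.v i k := by
  classical
  have h1 : P.root i = ∑ j ∈ b.support,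
      (fun j => if h : j ∈ b.support then m.v i (m.e.symm ⟨j, h⟩) else 0) j • P.root j := by
    rw [m.root i, ← Finset.sum_coe_sort b.support, ← Equiv.sum_comp m.e]
    refine Finset.sum_congr rfl fun k _ => ?_
    simp
  rw [RootPairing.Base.height_eq_sum h1, ← Finset.sum_coe_sort b.support, ← Equiv.sum_comp m.e]
  refine Finset.sum_congr rfl fun k _ => ?_
  simp

theorem pos_iff (i : ι) : m.v i ∈ D.Pos ↔ b.IsPos i := by
  rw [b.isPos_iff, m.height_eq, RS.mem_Pos]
  have h0 : m.v i ≠ 0 := RS.ne_zero (m.v_mem i)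
  constructor
  · rintro ⟨-, h⟩
    refine lt_of_le_of_ne (Finset.sum_nonneg fun k _ => h k) fun h1 => h0 ?_
    funext k
    exact (Finset.sum_eq_zero_iff_of_nonneg fun k _ => h k).1 h1.symm k (Finset.mem_univ k)
  · intro h
    refine ⟨m.v_mem i, ?_⟩
    rcases D.sign _ (m.v_mem i) with h1 | h1
    · exact h1
    · exact absurd h (not_lt.2 (Finset.sum_nonpos fun k _ => h1 k))

theorem mem_pos {i : ι} : i ∈ Flag.pos b ↔ m.v i ∈ D.Pos := by
  classical
  unfold Flag.pos
  rw [Finset.mem_filter, m.pos_iff]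
  simp

/-- sums over the positive roots -/
theorem sum_pos {M : Type*} [AddCommMonoid M] (f : (Fin r → ℤ) → M) :
    ∑ i ∈ Flag.pos b, f (m.v i) = ∑ a ∈ D.Pos, f a := by
  refine Finset.sum_bij (fun i _ => m.v i) (fun i hi => m.mem_pos.1 hi)
    (fun i _ j _ h => m.v_inj h) (fun a ha => ?_) fun i _ => rfl
  obtain ⟨i, hi⟩ := (m.range_v a).1 (RS.mem_of_pos ha)
  exact ⟨i, m.mem_pos.2 (by rw [hi]; exact ha), hi⟩

theorem prod_pos {M : Type*} [CommMonoid M] (f : (Fin r → ℤ) → M) :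
    ∏ i ∈ Flag.pos b, f (m.v i) = ∏ a ∈ D.Pos, f a := by
  refine Finset.prod_bij (fun i _ => m.v i) (fun i hi => m.mem_pos.1 hi)
    (fun i _ j _ h => m.v_inj h) (fun a ha => ?_) fun i _ => rfl
  obtain ⟨i, hi⟩ := (m.range_v a).1 (RS.mem_of_pos ha)
  exact ⟨i, m.mem_pos.2 (by rw [hi]; exact ha), hi⟩

include m in
theorem card_pos : (Flag.pos b).card = D.dm := by
  unfold RS.dm
  rw [Finset.card_eq_sum_ones, Finset.card_eq_sum_ones]
  exact m.sum_pos fun _ => 1

theorem len_eq (w : P.weylGroup) : Flag.len b w = D.len (m.f w) := by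
  classical
  unfold Flag.len RS.len
  rw [Finset.card_filter, Finset.card_filter, ← m.sum_pos]
  refine Finset.sum_congr rfl fun i _ => ?_
  refine if_congr ?_ rfl rfl
  rw [m.f_root, m.pos_iff]

theorem c1_eq : Flag.c₁ b = m.bk D.ctr := by
  unfold Flag.c₁
  rw [bk_apply]
  have h1 : ∀ i, P.root i = ∑ k, ((m.v i k : ℤ) : ℂ) • P.root (m.e k) := by
    intro i
    rw [m.root i]
    exact Finset.sum_congr rfl fun k _ => (Int.cast_smul_eq_zsmul ℂ _ _).symm
  rw [Finset.sum_congr rfl fun i _ => h1 i, Finset.sum_comm]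
  refine Finset.sum_congr rfl fun k _ => ?_
  rw [← Finset.sum_smul]
  congr 1
  rw [m.sum_pos fun a => ((a k : ℤ) : ℂ)]
  unfold RS.ctr RS.tr
  rw [Finset.sum_apply]
  push_cast
  rfl

theorem ch_ctr' (i : ι) : P.coroot' i (Flag.c₁ b) = D.L (m.v i) := by
  rw [m.c1_eq, ← m.ch_bk]
  unfold RS.ch RS.L RS.ctr dotProduct
  push_cast
  exact Finset.sum_congr rfl fun k _ => mul_comm _ _

theorem refl_iff (u w : P.weylGroup) (i : ι) :
    u = w * RootPairing.weylGroup.ofIdx P i ↔ m.f u = m.f w * D.refl (m.v i) := by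
  rw [← m.f_refl, ← map_mul]
  exact (m.f.injective.eq_iff).symm

theorem cup_bk (h : Fin r → ℂ) : Flag.cup b (m.bk h) = (D.E0 (D.ch h)).submatrix m.f m.f := by
  classical
  ext u w
  unfold Flag.cup RS.E0
  rw [Matrix.submatrix_apply, Matrix.of_apply, Matrix.of_apply, ← m.sum_pos]
  refine Finset.sum_congr rfl fun i _ => ?_
  rw [m.ch_bk]
  refine if_congr ?_ rfl rfl
  rw [m.refl_iff, m.len_eq, m.len_eq]

theorem qq_bk (t : Fin r → ℂ) (i : ι) : RS.qq t (D.co (m.v i)) =
    Complex.exp (P.coroot' i (m.bk t)) := by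
  rw [← m.ch_bk]
  rfl

theorem mul_bk (t h : Fin r → ℂ) : Flag.mul b (m.bk t) (m.bk h) =
    (D.E (D.ch h) t).submatrix m.f m.f := by
  classical
  ext u w
  unfold Flag.mul
  rw [Matrix.add_apply, m.cup_bk, Matrix.submatrix_apply, Matrix.submatrix_apply, Matrix.of_apply]
  unfold RS.E RS.E0
  rw [Matrix.of_apply, Matrix.of_apply, ← m.sum_pos, ← m.sum_pos, ← Finset.sum_add_distrib]
  refine Finset.sum_congr rfl fun i _ => ?_
  rw [← m.ch_bk, m.qq_bk, m.ch_ctr', m.len_eq, m.len_eq]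
  have h1 : ((D.len (m.f u) : ℂ) + (D.L (m.v i) : ℂ) = D.len (m.f w) + 1) ↔
      ((D.len (m.f u) : ℤ) + D.L (m.v i) = D.len (m.f w) + 1) := by
    constructor
    · intro h
      exact_mod_cast h
    · intro h
      exact_mod_cast h
  by_cases h2 : m.f u = m.f w * D.refl (m.v i)
  · have h3 := (m.refl_iff u w i).2 h2
    rw [if_pos h2]
    simp only [h1]
    by_cases h4 : D.len (m.f u) = D.len (m.f w) + 1
    · by_cases h5 : (D.len (m.f u) : ℤ) + D.L (m.v i) = D.len (m.f w) + 1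
      · rw [if_pos ⟨h2, h4⟩, if_pos ⟨h3, h5⟩, if_pos h4, if_pos h5]
        ring
      · rw [if_pos ⟨h2, h4⟩, if_neg (fun h => h5 h.2), if_pos h4, if_neg h5]
        ring
    · by_cases h5 : (D.len (m.f u) : ℤ) + D.L (m.v i) = D.len (m.f w) + 1
      · rw [if_neg (fun h => h4 h.2), if_pos ⟨h3, h5⟩, if_neg h4, if_pos h5]
        ring
      · rw [if_neg (fun h => h4 h.2), if_neg (fun h => h5 h.2), if_neg h4, if_neg h5]
        ring
  · have h3 : ¬ u = w * RootPairing.weylGroup.ofIdx P i := fun h => h2 ((m.refl_iff u w i).1 h)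
    rw [if_neg h2, if_neg (fun h => h2 h.1), if_neg (fun h => h3 h.1), add_zero]

theorem w0_iff (u v : P.weylGroup) : (m.f u = D.w0 * m.f v) ↔
    ∀ i, (b.IsPos (P.weylGroupToPerm u i) ↔ ¬ b.IsPos (P.weylGroupToPerm v i)) := by
  have hw0 : ∀ a ∈ D.Φ, (D.rt D.w0 a ∈ D.Pos ↔ a ∉ D.Pos) := by
    intro a ha
    constructor
    · intro h h'
      exact RS.w0_pos h' h
    · intro h
      have h1 := RS.w0_pos ((RS.not_pos_iff ha).1 h)
      rw [D.rt_neg] at h1
      by_contra h2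
      exact h1 ((RS.not_pos_iff (D.rt_mem.2 ha)).1 h2)
  constructor
  · intro h i
    rw [← m.pos_iff, ← m.pos_iff, ← m.f_root, ← m.f_root, h, D.rt_mul,
      hw0 _ (D.rt_mem.2 (m.v_mem i))]
  · intro h
    have h1 : ∀ a ∈ D.Φ, (D.rt (m.f u) a ∈ D.Pos ↔ D.rt (m.f v) a ∉ D.Pos) := by
      intro a ha
      obtain ⟨i, rfl⟩ := (m.range_v a).1 ha
      rw [m.f_root, m.f_root, m.pos_iff, m.pos_iff]
      exact h i
    have h2 : D.w0 * m.f v * (m.f u)⁻¹ = 1 := by
      apply RS.eq_one_of_len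
      unfold RS.len
      rw [Finset.card_eq_zero, Finset.filter_eq_empty_iff]
      intro a ha h3
      apply h3
      have h4 : D.rt (m.f u)⁻¹ a ∈ D.Φ := D.rt_mem.2 (RS.mem_of_pos ha)
      rw [D.rt_mul, D.rt_mul, hw0 _ (D.rt_mem.2 h4), ← h1 _ h4, D.rt_rt_inv]
      exact ha
    exact (mul_inv_eq_one.1 h2).symm

end IsModel

end

end Pool.Agent.FLG
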