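import Pool.Agent.FLG.Z.Main
import Pool.Agent.FLG.Z.Uniq
import Pool.Agent.FLG.Z.Tr
import Pool.Agent.FLG.Z.Sub

/-!
# FLG-Z-Fin: the numerical conjecture of Dubrovin for flag varieties
-/

set_option autoImplicit false
set_option linter.unusedSectionVars false

open scoped BigOperators Topology
open Filter
open Pool.Agent.DST.TE Pool.Agent.DSTJ.Spec Pool.Agent.FLG.Mo

namespace Pool.Agent.FLG

variable {ι V V' : Type} [Fintype ι] [AddCommGroup V] [Module ℂ V] [AddCommGroup V'] [Module ℂ V']
  {P : RootPairing ι ℂ V V'} [P.IsCrystallographic] {b : P.Base} {r : ℕ} {D : RS r}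

namespace IsModel

variable (m : IsModel P b D)

theorem small_bk (t : Fin r → ℂ) :
    Flag.small b (m.bk t) = (RS.smallF D t).sub m.f.toEquiv := by
  classical
  unfold Flag.small Small.sub RS.smallF
  congr 1
  · exact m.card_pos
  · funext w
    exact m.len_eq w
  · ext u v
    show (if ∀ i, (b.IsPos (P.weylGroupToPerm u i) ↔ ¬ b.IsPos (P.weylGroupToPerm v i)) then
      (1 : ℂ) else 0) = if m.f u = D.w0 * m.f v then 1 else 0
    exact if_congr (m.w0_iff u v).symm rfl rfl
  · rw [m.c1_eq]
    exact m.cup_bk D.ctr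
  · rw [m.c1_eq]
    exact m.mul_bk t D.ctr

theorem isWt_of {h : Fin r → ℂ} (H : ∀ i, ∃ n : ℤ, P.coroot' i (m.bk h) = n) : D.IsWt h := by
  intro k
  obtain ⟨n, hn⟩ := H (m.e k)
  exact ⟨n, by rw [← m.v_e, m.ch_bk, hn]⟩

theorem of_isWt {h : Fin r → ℂ} (H : D.IsWt h) (i : ι) : ∃ n : ℤ, P.coroot' i (m.bk h) = n := by
  obtain ⟨n, hn⟩ := RS.ch_int H (m.v_mem i)
  exact ⟨n, by rw [← m.ch_bk, hn]⟩

/-- from classes in coordinates to classes -/
noncomputable def back (x : D.KB) : Flag.KClass P :=
  x.mapDomain fun h => ⟨m.bk h.1, m.of_isWt h.2⟩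

/-- from classes to classes in coordinates -/
noncomputable def fwd [P.IsRootSystem] (x : Flag.KClass P) : D.KB :=
  x.mapDomain fun μ => ⟨m.s μ.1, m.isWt_of (by rw [m.bk_s]; exact μ.2)⟩

theorem weyl_bk (h : Fin r → ℂ) : Flag.weyl b (m.bk h) = D.wey h := by
  unfold Flag.weyl RS.wey
  rw [← m.prod_pos]
  refine Finset.prod_congr rfl fun i _ => ?_
  rw [map_add, m.ch_ctr', map_nsmul, ← m.ch_bk]
  congr 1
  rw [nsmul_eq_mul]
  push_cast
  ring

theorem euler_back (x y : D.KB) : Flag.euler b (m.back x) (m.back y) = D.eul x y := by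
  unfold Flag.euler back RS.eul
  rw [Finsupp.sum_mapDomain_index (by intro μ; simp) (by
    intro μ k l
    rw [← Finsupp.sum_add]
    refine Finsupp.sum_congr fun ν _ => ?_
    push_cast
    ring)]
  refine Finsupp.sum_congr fun h _ => ?_
  rw [Finsupp.sum_mapDomain_index (by intro μ; simp) (by intro μ k l; push_cast; ring)]
  refine Finsupp.sum_congr fun k _ => ?_
  rw [← map_sub, m.weyl_bk]

theorem euler_fwd [P.IsRootSystem] (x y : Flag.KClass P) :
    D.eul (m.fwd x) (m.fwd y) = Flag.euler b x y := by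
  unfold Flag.euler fwd RS.eul
  rw [Finsupp.sum_mapDomain_index (by intro μ; simp) (by
    intro μ k l
    rw [← Finsupp.sum_add]
    refine Finsupp.sum_congr fun ν _ => ?_
    push_cast
    ring)]
  refine Finsupp.sum_congr fun h _ => ?_
  rw [Finsupp.sum_mapDomain_index (by intro μ; simp) (by intro μ k l; push_cast; ring)]
  refine Finsupp.sum_congr fun k _ => ?_
  rw [← m.weyl_bk, map_sub, m.bk_s, m.bk_s]

variable [Fintype P.weylGroup] [DecidableEq P.weylGroup]

theorem exp_cup (h : Fin r → ℂ) (u : P.weylGroup) :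
    NormedSpace.exp (Flag.cup b (m.bk h)) u 1 = D.chL h (m.f u) := by
  have h1 : Flag.cup b (m.bk h) = (D.E0 (D.ch h)).submatrix m.f.toEquiv m.f.toEquiv := m.cup_bk h
  rw [h1, ← exp_subm, Matrix.submatrix_apply]
  show NormedSpace.exp (D.E0 (D.ch h)) (m.f u) (m.f 1) = _
  rw [map_one]
  rfl

theorem chern_back (x : D.KB) (u : P.weylGroup) :
    Flag.chern b (m.back x) u = D.chK x (m.f u) := by
  unfold Flag.chern back RS.chK
  rw [Finsupp.sum_mapDomain_index (by intro μ; simp) (by intro μ k l; push_cast; ring)]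
  refine Finsupp.sum_congr fun h _ => ?_
  rw [m.exp_cup]

theorem chern_fwd [P.IsRootSystem] (x : Flag.KClass P) (u : P.weylGroup) :
    D.chK (m.fwd x) (m.f u) = Flag.chern b x u := by
  unfold Flag.chern fwd RS.chK
  rw [Finsupp.sum_mapDomain_index (by intro μ; simp) (by intro μ k l; push_cast; ring)]
  refine Finsupp.sum_congr fun h _ => ?_
  rw [← m.exp_cup, m.bk_s]

theorem root_bk (i : ι) : P.root i = m.bk (RS.ca (m.v i)) := by
  rw [m.root i, m.bk_apply]
  exact Finset.sum_congr rfl fun k _ => (Int.cast_smul_eq_zsmul ℂ _ _).symm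

theorem gammaOp_bk (t : Fin r → ℂ) :
    Flag.gammaOp b (m.bk t) = (D.GE t).submatrix m.f.toEquiv m.f.toEquiv := by
  unfold Flag.gammaOp RS.GE
  rw [exp_subm]
  congr 1
  have hpow : ∀ (A : Matrix D.W D.W ℂ) (k : ℕ), (A.submatrix m.f.toEquiv m.f.toEquiv) ^ k =
      (A ^ k).submatrix m.f.toEquiv m.f.toEquiv := by
    intro A k
    exact (map_pow (Matrix.reindexAlgEquiv ℂ ℂ m.f.toEquiv.symm) A k).symm
  have h1 : ∀ h, Flag.cup b (m.bk h) = (D.E0 (D.ch h)).submatrix m.f.toEquiv m.f.toEquiv :=
    m.cup_bk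
  have h2 : ∀ k, ∑ i ∈ Flag.pos b, Flag.cup b (P.root i) ^ k =
      (∑ a ∈ D.Pos, D.E0 (D.ch (RS.ca a)) ^ k).submatrix m.f.toEquiv m.f.toEquiv := by
    intro k
    have h3 : ∀ i ∈ Flag.pos b, Flag.cup b (P.root i) ^ k =
        (fun a => (D.E0 (D.ch (RS.ca a)) ^ k).submatrix m.f.toEquiv m.f.toEquiv) (m.v i) := by
      intro i _
      rw [m.root_bk, h1, hpow]
    rw [Finset.sum_congr rfl h3]
    refine (m.sum_pos fun a => (D.E0 (D.ch (RS.ca a)) ^ k).submatrix m.f.toEquiv
      m.f.toEquiv).trans ?_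
    ext u w
    rw [Matrix.sum_apply, Matrix.submatrix_apply, Matrix.sum_apply]
    rfl
  rw [h1, m.c1_eq, h1, m.card_pos]
  simp only [h2]
  ext u w
  simp only [Matrix.add_apply, Matrix.sum_apply, Matrix.smul_apply, Matrix.submatrix_apply]
  rfl

end IsModel

/-- The entries of the Stokes matrix. -/
theorem S_entries_small {κ : Type} [Fintype κ] [DecidableEq κ] {N : ℕ} {X : Small κ} (h : Ok X)
    (e : Fin N ≃ κ) (M : MonodromyData X N) :
    (∀ i, M.S i i = 1) ∧ ∀ i j, j < i → M.S i j = 0 := (toMD h e M).S_entries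

section final

variable (b) [P.IsRootSystem] [P.IsReduced] [Fintype P.weylGroup] [DecidableEq P.weylGroup]

private theorem num_card {r : ℕ} {D : RS r} (m : IsModel P b D) :
    Nonempty (D.Num (Fintype.card P.weylGroup)) := by
  have h := RS.exists_num D
  rwa [← Fintype.card_congr m.f.toEquiv] at h

/-- Existence and uniqueness of the standard solution. -/
theorem exists_standard (t : V) : ∃! Z, IsStandard (Flag.small b t) Z := by
  obtain ⟨D, ⟨m⟩⟩ := exists_model P b
  obtain ⟨n⟩ := num_card b m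
  have h1 : Flag.small b t = (RS.smallF D (m.s t)).sub m.f.toEquiv := by
    rw [← m.small_bk, m.bk_s]
  rw [h1]
  refine ⟨fun w => (RS.Zst n (m.s t) w).submatrix m.f.toEquiv m.f.toEquiv,
    standard_sub _ (RS.isStandard_Zst n (m.s t)), fun Z hZ => ?_⟩
  have h2 := standard_unique (RS.ok_smallF D (m.s t)) (standard_unsub _ hZ)
    (RS.isStandard_Zst n (m.s t))
  funext w
  rw [← h2]
  ext i j
  simp

/-- Existence of monodromy data. -/
theorem exists_data_small' (t : V) (hsep : (Flag.small b t).mul.charpoly.Separable) {φ : ℝ}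
    (hφ : IsAdmissible (Flag.small b t) φ) :
    ∃ M : MonodromyData (Flag.small b t) (Fintype.card P.weylGroup), M.φ = φ := by
  obtain ⟨D, ⟨m⟩⟩ := exists_model P b
  obtain ⟨n⟩ := num_card b m
  have h1 : Flag.small b t = (RS.smallF D (m.s t)).sub m.f.toEquiv := by
    rw [← m.small_bk, m.bk_s]
  rw [h1] at hsep hφ ⊢
  rw [charpoly_sub] at hsep
  obtain ⟨M, hM⟩ := RS.exists_data_flag n (m.s t) hsep (admissible_sub _ hφ)
  exact ⟨reMD _ M, hM⟩

/-- The numerical form of the conjecture of Dubrovin for flag varieties. -/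
theorem final_flag (t : V) {Z : ℂ → Matrix P.weylGroup P.weylGroup ℂ}
    (hZ : IsStandard (Flag.small b t) Z)
    (M : MonodromyData (Flag.small b t) (Fintype.card P.weylGroup)) :
    ∃ v : Fin (Fintype.card P.weylGroup) → Flag.KClass P,
      Flag.IsExceptionalBasis b v ∧
      (∀ i j, M.S i j = Flag.euler b (v i) (v j)) ∧
      (∃ C' : Matrix P.weylGroup P.weylGroup ℂ,
        C' * (Flag.small b t).cup = (Flag.small b t).cup * C' ∧ C'.det ≠ 0 ∧
        M.C = C' * (Flag.small b t).twist * Flag.chernMatrix b v ∧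
        ∀ (x y : Flag.KClass P) (w : ℂ), flatPairing M w
          ((C' * (Flag.small b t).twist).mulVec (Flag.chern b x))
          ((C' * (Flag.small b t).twist).mulVec (Flag.chern b y)) = Flag.euler b x y) ∧
      ∀ w, M.Xminus w = (Complex.I / (Real.sqrt (2 * Real.pi) : ℂ)) ^ (Flag.pos b).card •
        (Z w * Flag.gammaOp b t * (Flag.small b t).twist * Flag.chernMatrix b v) := by
  obtain ⟨D, ⟨m⟩⟩ := exists_model P b
  obtain ⟨n⟩ := num_card b m
  obtain ⟨t, rfl⟩ := m.bk_surj t
  have key : ∀ X : Small P.weylGroup, X = (RS.smallF D t).sub m.f.toEquiv →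
      ∀ Z, IsStandard X Z → ∀ M : MonodromyData X (Fintype.card P.weylGroup),
      ∃ v : Fin (Fintype.card P.weylGroup) → Flag.KClass P,
      Flag.IsExceptionalBasis b v ∧
      (∀ i j, M.S i j = Flag.euler b (v i) (v j)) ∧
      (∃ C' : Matrix P.weylGroup P.weylGroup ℂ,
        C' * X.cup = X.cup * C' ∧ C'.det ≠ 0 ∧
        M.C = C' * X.twist * Flag.chernMatrix b v ∧
        ∀ (x y : Flag.KClass P) (w : ℂ), flatPairing M w
          ((C' * X.twist).mulVec (Flag.chern b x))
          ((C' * X.twist).mulVec (Flag.chern b y)) = Flag.euler b x y) ∧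
      ∀ w, M.Xminus w = (Complex.I / (Real.sqrt (2 * Real.pi) : ℂ)) ^ (Flag.pos b).card •
        (Z w * Flag.gammaOp b (m.bk t) * X.twist * Flag.chernMatrix b v) := by
    rintro X rfl Z hZ M
    obtain ⟨M', hS, hX, hcal, hC⟩ := exists_unre m.f.toEquiv M
    obtain ⟨v, hgen, hind, hSv, hXv, C', hC1, hC2, hC3, hC4⟩ := RS.final_rs n t M'
    have hent := S_entries_small (RS.ok_smallF D t) n.e M'
    have hZeq : ∀ w, Z w = (RS.Zst n t w).submatrix m.f.toEquiv m.f.toEquiv := by
      intro w
      have h2 := standard_unique (RS.ok_smallF D t) (standard_unsub _ hZ) (RS.isStandard_Zst n t)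
      rw [← h2]
      ext i j
      simp
    have hcM : Flag.chernMatrix b (fun j => m.back (v j)) =
        (RS.cM v).submatrix m.f.toEquiv id := by
      ext u j
      exact m.chern_back (v j) u
    have hSe : ∀ i j, M.S i j = Flag.euler b (m.back (v i)) (m.back (v j)) := by
      intro i j
      rw [m.euler_back, ← hSv, hS]
    have htw := twist_sub (RS.smallF D t) m.f.toEquiv
    refine ⟨fun j => m.back (v j), ⟨?_, ?_, ?_, ?_⟩, hSe, ?_, ?_⟩
    · intro x
      obtain ⟨c, hc⟩ := hgen (m.fwd x)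
      refine ⟨c, ?_⟩
      funext u
      rw [← m.chern_fwd, hc (m.f u), Finset.sum_apply]
      refine Finset.sum_congr rfl fun j _ => ?_
      rw [Pi.smul_apply, m.chern_back, zsmul_eq_mul]
    · rw [Fintype.linearIndependent_iff]
      intro g hg i
      have h2 := hind g (by
        funext u
        have h3 := congrFun hg (m.f.symm u)
        rw [Finset.sum_apply] at h3
        show ∑ j, RS.cM v u j * g j = 0
        rw [Pi.zero_apply] at h3
        rw [← h3]
        refine Finset.sum_congr rfl fun j _ => ?_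
        rw [Pi.smul_apply, m.chern_back, smul_eq_mul, mul_comm]
        simp [RS.cM])
      rw [h2]
      rfl
    · intro i
      rw [← hSe, ← hS]
      exact hent.1 i
    · intro i j hij
      rw [← hSe, ← hS]
      exact hent.2 i j hij
    · refine ⟨C'.submatrix m.f.toEquiv m.f.toEquiv, ?_, ?_, ?_, ?_⟩
      · show C'.submatrix m.f.toEquiv m.f.toEquiv *
          (RS.smallF D t).cup.submatrix m.f.toEquiv m.f.toEquiv =
          (RS.smallF D t).cup.submatrix m.f.toEquiv m.f.toEquiv *
            C'.submatrix m.f.toEquiv m.f.toEquiv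
        rw [Matrix.submatrix_mul_equiv, Matrix.submatrix_mul_equiv, hC1]
      · rw [Matrix.det_submatrix_equiv_self]
        exact hC2
      · rw [hC, hC3, hcM, htw, Matrix.submatrix_mul_equiv, Matrix.submatrix_mul_equiv]
      · intro x y w
        rw [htw, Matrix.submatrix_mul_equiv]
        have h2 : ∀ x : Flag.KClass P, ((C' * (RS.smallF D t).twist).submatrix m.f.toEquiv
            m.f.toEquiv).mulVec (Flag.chern b x) =
            fun i => ((C' * (RS.smallF D t).twist).mulVec (D.chK (m.fwd x))) (m.f.toEquiv i) := by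
          intro x
          funext i
          unfold Matrix.mulVec dotProduct
          rw [← Equiv.sum_comp m.f.toEquiv]
          refine Finset.sum_congr rfl fun j _ => ?_
          show (C' * (RS.smallF D t).twist) (m.f.toEquiv i) (m.f.toEquiv j) * Flag.chern b x j =
            (C' * (RS.smallF D t).twist) (m.f.toEquiv i) (m.f.toEquiv j) * _
          congr 1
          exact (m.chern_fwd x j).symm
        rw [h2, h2, flatPairing_sub _ hcal, hC4, m.euler_fwd]
    · intro w
      rw [hX, hXv, hcM, htw, m.gammaOp_bk, hZeq, Matrix.submatrix_mul_equiv,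
        Matrix.submatrix_mul_equiv, Matrix.submatrix_mul_equiv, m.card_pos]
      simp only [Matrix.mul_assoc]
      rfl
  exact key _ (m.small_bk t) Z hZ M

end final

end Pool.Agent.FLG
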