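import Pool.Agent.FLG.Z.Fin
import Pool.Agent.FLG.G.Main

/-!
# FLG-Z-Dense: the points with pairwise distinct canonical coordinates are dense
-/

set_option autoImplicit false

open scoped BigOperators Topology
open Filter
open Pool.Agent.DST.TE Pool.Agent.DSTJ.Spec Pool.Agent.FLG.Mo

namespace Pool.Agent.FLG

variable {ι V V' : Type} [Fintype ι] [AddCommGroup V] [Module ℂ V] [AddCommGroup V'] [Module ℂ V']
  {P : RootPairing ι ℂ V V'} [P.IsCrystallographic] (b : P.Base) [P.IsRootSystem] [P.IsReduced]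
  [Fintype P.weylGroup] [DecidableEq P.weylGroup]

/-- The points `t ∈ H^2` with pairwise distinct canonical coordinates are dense. -/
theorem dense_flag (t₀ : V) {δ : ℝ} (hδ : 0 < δ) : ∃ t : V,
    (∀ i, ‖P.coroot' i (t - t₀)‖ < δ) ∧ (Flag.small b t).mul.charpoly.Separable := by
  obtain ⟨D, ⟨m⟩⟩ := exists_model P b
  have hop : IsOpen {x : Fin b.support.card → ℂ | ∀ i, ‖D.ch (x - m.s t₀) (m.v i)‖ < δ} := by
    have h1 : {x : Fin b.support.card → ℂ | ∀ i, ‖D.ch (x - m.s t₀) (m.v i)‖ < δ} =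
        ⋂ i, {x | ‖D.ch (x - m.s t₀) (m.v i)‖ < δ} := by
      ext x
      simp
    rw [h1]
    refine isOpen_iInter_of_finite fun i => ?_
    have h2 : Continuous fun x : Fin b.support.card → ℂ => ‖D.ch (x - m.s t₀) (m.v i)‖ := by
      unfold RS.ch
      simp only [Pi.sub_apply]
      fun_prop
    exact isOpen_lt h2 continuous_const
  obtain ⟨x, hx, hsep⟩ := (RS.dense_sep D).inter_open_nonempty _ hop ⟨m.s t₀, fun i => by
    unfold RS.ch
    simp only [sub_self, Pi.zero_apply, zero_mul, Finset.sum_const_zero, norm_zero]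
    exact hδ⟩
  refine ⟨m.bk x, fun i => ?_, ?_⟩
  · have h3 : m.bk x - t₀ = m.bk (x - m.s t₀) := by
      rw [map_sub, m.bk_s]
    rw [h3, ← m.ch_bk]
    exact hx i
  · rw [m.small_bk, charpoly_sub]
    have h4 : D.ch D.ctr = D.cL := by
      funext a
      rw [RS.ch_ctr]
      rfl
    show (D.E (D.ch D.ctr) x).charpoly.Separable
    rw [h4]
    exact hsep

end Pool.Agent.FLG
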