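import Pool.Agent.FLG.Z.Ev
import Pool.Agent.FLG.Z.Gam
import Pool.Agent.FLG.Fin.Main

/-!
# FLG-Z-Main: the numerical conjecture of Dubrovin for flag varieties, in coordinates
-/

set_option autoImplicit false

open scoped BigOperators Topology
open Filter
open Pool.Agent.DST.TE Pool.Agent.DSTJ.Spec Pool.Agent.FLG.Mo

namespace Pool.Agent.FLG

section flat

variable {ι : Type} [Fintype ι] [DecidableEq ι] {N : ℕ} {X : Small ι}

theorem pairing_S (h : Ok X) (e : Fin N ≃ ι) (M : MonodromyData X N) (w : ℂ) :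
    (M.Xminus (w + Real.pi * Complex.I)).transpose * X.pair * M.Xminus w = M.S := by
  have h1 := (toMD h e M).pairing_minus_minus w
  have h2 : ((M.Xminus (w + Real.pi * Complex.I)).submatrix e id).transpose *
      X.pair.submatrix e e * (M.Xminus w).submatrix e id = M.S := h1
  rw [Matrix.transpose_submatrix, Matrix.submatrix_mul_equiv, Matrix.submatrix_mul_equiv,
    Matrix.submatrix_id_id] at h2
  exact h2

theorem flatPairing_C (h : Ok X) (e : Fin N ≃ ι) (M : MonodromyData X N) (w : ℂ)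
    (a b : Fin N → ℂ) :
    flatPairing M w (M.C.mulVec a) (M.C.mulVec b) = dotProduct a (M.S.mulVec b) := by
  have key : ∀ w (b : Fin N → ℂ), (zSol X M.𝒮 w).mulVec (M.C.mulVec b) = (M.Xminus w).mulVec b := by
    intro w b
    rw [Matrix.mulVec_mulVec, ← M.central]
  unfold flatPairing
  rw [key, key, ← pairing_S h e M w, ← Matrix.mulVec_mulVec, ← Matrix.mulVec_mulVec,
    Matrix.dotProduct_mulVec a, Matrix.vecMul_transpose]

theorem C_inj (h : Ok X) (e : Fin N ≃ ι) (M : MonodromyData X N) {a : Fin N → ℂ}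
    (ha : M.C.mulVec a = 0) : a = 0 := by
  have h1 : IsUnit (M.C.submatrix e id) := (toMD h e M).C_isUnit
  have h2 : (M.C.submatrix e id).mulVec a = 0 := by
    funext i
    exact congrFun ha (e i)
  have h3 := congrArg (fun x => ((M.C.submatrix e id)⁻¹).mulVec x) h2
  simp only [Matrix.mulVec_mulVec, Matrix.mulVec_zero] at h3
  rwa [Matrix.nonsing_inv_mul _ ((Matrix.isUnit_iff_isUnit_det _).1 h1), Matrix.one_mulVec] at h3

end flat

namespace RS

variable {r : ℕ} {D : RS r} {N : ℕ}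

theorem chK_add (x y : D.KB) (u : D.W) : D.chK (x + y) u = D.chK x u + D.chK y u := by
  unfold chK
  rw [Finsupp.sum_add_index' (fun h => by simp) (fun h a b => by push_cast; ring)]

/-- the Chern character as a homomorphism -/
noncomputable def chH (D : RS r) (u : D.W) : D.KB →+ ℂ :=
  AddMonoidHom.mk' (fun x => D.chK x u) fun x y => chK_add x y u

theorem eul_add_right (x y y' : D.KB) : D.eul x (y + y') = D.eul x y + D.eul x y' := by
  unfold eul
  rw [← Finsupp.sum_add]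
  refine Finsupp.sum_congr fun h _ => ?_
  rw [Finsupp.sum_add_index' (fun h => by simp) (fun h a b => by push_cast; ring)]

theorem eul_add_left (x x' y : D.KB) : D.eul (x + x') y = D.eul x y + D.eul x' y := by
  unfold eul
  rw [Finsupp.sum_add_index' (fun h => by simp) (fun h a b => ?_)]
  rw [← Finsupp.sum_add]
  refine Finsupp.sum_congr fun k _ => ?_
  push_cast
  ring

/-- the Euler form as a homomorphism -/
noncomputable def eulH (D : RS r) : D.KB →+ D.KB →+ ℂ :=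
  AddMonoidHom.mk' (fun x => AddMonoidHom.mk' (fun y => D.eul x y) fun y y' => eul_add_right x y y')
    fun x x' => AddMonoidHom.ext fun y => eul_add_left x x' y

theorem eulH_apply (x y : D.KB) : D.eulH x y = D.eul x y := rfl

theorem chH_apply (x : D.KB) (u : D.W) : D.chH u x = D.chK x u := rfl

variable (n : D.Num N)

/-- the combinations with matrix `U` -/
noncomputable def vU (U : Matrix (Fin N) (Fin N) ℤ) (j : Fin N) : D.KB :=
  ∑ i, U i j • bB (n.e i)

theorem chK_vU (U : Matrix (Fin N) (Fin N) ℤ) (j : Fin N) (u : D.W) :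
    D.chK (vU n U j) u = ∑ i, D.chK (bB (n.e i)) u * (U i j : ℂ) := by
  rw [← chH_apply]
  unfold vU
  rw [map_sum]
  refine Finset.sum_congr rfl fun i _ => ?_
  rw [map_zsmul, zsmul_eq_mul, mul_comm]
  rfl

theorem eul_vU (U : Matrix (Fin N) (Fin N) ℤ) (i j : Fin N) :
    D.eul (vU n U i) (vU n U j) = ∑ k, ∑ l, (U k i : ℂ) * (U l j : ℂ) *
      D.eul (bB (n.e k)) (bB (n.e l)) := by
  have h1 : D.eulH (vU n U i) = ∑ k, U k i • D.eulH (bB (n.e k)) := by
    unfold vU
    rw [map_sum]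
    exact Finset.sum_congr rfl fun k _ => map_zsmul _ _ _
  rw [← eulH_apply, h1, AddMonoidHom.finsetSum_apply]
  refine Finset.sum_congr rfl fun k _ => ?_
  unfold vU
  rw [AddMonoidHom.smul_apply, map_sum, Finset.smul_sum]
  refine Finset.sum_congr rfl fun l _ => ?_
  rw [map_zsmul, zsmul_eq_mul, zsmul_eq_mul, mul_assoc]
  rfl

/-- the coordinates in the basis `vU` -/
noncomputable def aU (U : Matrix (Fin N) (Fin N) ℤ) (x : D.KB) (j : Fin N) : ℤ :=
  ∑ k, U⁻¹ j k * cZ x (n.e k)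

private theorem U_aU {U : Matrix (Fin N) (Fin N) ℤ} (hU : IsUnit U.det) (x : D.KB) (i : Fin N) :
    ∑ j, (U i j : ℂ) * (aU n U x j : ℂ) = (cZ x (n.e i) : ℂ) := by
  have h1 : U.mulVec (aU n U x) = fun k => cZ x (n.e k) := by
    have h2 : aU n U x = U⁻¹.mulVec fun k => cZ x (n.e k) := rfl
    rw [h2, Matrix.mulVec_mulVec, Matrix.mul_nonsing_inv _ hU, Matrix.one_mulVec]
  have h3 := congrFun h1 i
  have h4 : ((U.mulVec (aU n U x) i : ℤ) : ℂ) = (cZ x (n.e i) : ℂ) := by rw [h3]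
  rw [← h4]
  unfold Matrix.mulVec dotProduct
  push_cast
  rfl

theorem chK_aU {U : Matrix (Fin N) (Fin N) ℤ} (hU : IsUnit U.det) (x : D.KB) (u : D.W) :
    D.chK x u = ∑ j, (aU n U x j : ℂ) * D.chK (vU n U j) u := by
  rw [chK_cZ, ← Equiv.sum_comp n.e]
  simp only [chK_vU, Finset.mul_sum]
  rw [Finset.sum_comm]
  refine Finset.sum_congr rfl fun i _ => ?_
  rw [← U_aU n hU x i, Finset.sum_mul]
  refine Finset.sum_congr rfl fun j _ => ?_
  ring

theorem eul_aU {U : Matrix (Fin N) (Fin N) ℤ} (hU : IsUnit U.det) (x y : D.KB) :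
    D.eul x y = ∑ i, ∑ j, (aU n U x i : ℂ) * (aU n U y j : ℂ) *
      D.eul (vU n U i) (vU n U j) := by
  have h1 : D.eul x y = ∑ k, ∑ l, (cZ x (n.e k) : ℂ) * (cZ y (n.e l) : ℂ) *
      D.eul (bB (n.e k)) (bB (n.e l)) := by
    rw [eul_cZ, ← Equiv.sum_comp n.e]
    refine Finset.sum_congr rfl fun k _ => ?_
    rw [← Equiv.sum_comp n.e]
  have h2 : ∀ k l, (cZ x (n.e k) : ℂ) * (cZ y (n.e l) : ℂ) * D.eul (bB (n.e k)) (bB (n.e l)) =
      ∑ i, ∑ j, (aU n U x i : ℂ) * (aU n U y j : ℂ) * ((U k i : ℂ) * (U l j : ℂ) *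
        D.eul (bB (n.e k)) (bB (n.e l))) := by
    intro k l
    rw [← U_aU n hU x k, ← U_aU n hU y l, Finset.sum_mul_sum, Finset.sum_mul]
    refine Finset.sum_congr rfl fun i _ => ?_
    rw [Finset.sum_mul]
    refine Finset.sum_congr rfl fun j _ => ?_
    ring
  rw [h1]
  simp only [h2, eul_vU, Finset.mul_sum]
  calc ∑ k, ∑ l, ∑ i, ∑ j, (aU n U x i : ℂ) * (aU n U y j : ℂ) * ((U k i : ℂ) * (U l j : ℂ) *
        D.eul (bB (n.e k)) (bB (n.e l)))
      = ∑ k, ∑ i, ∑ l, ∑ j, (aU n U x i : ℂ) * (aU n U y j : ℂ) * ((U k i : ℂ) * (U l j : ℂ) *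
        D.eul (bB (n.e k)) (bB (n.e l))) := Finset.sum_congr rfl fun k _ => Finset.sum_comm
    _ = ∑ i, ∑ k, ∑ l, ∑ j, (aU n U x i : ℂ) * (aU n U y j : ℂ) * ((U k i : ℂ) * (U l j : ℂ) *
        D.eul (bB (n.e k)) (bB (n.e l))) := Finset.sum_comm
    _ = ∑ i, ∑ k, ∑ j, ∑ l, (aU n U x i : ℂ) * (aU n U y j : ℂ) * ((U k i : ℂ) * (U l j : ℂ) *
        D.eul (bB (n.e k)) (bB (n.e l))) :=
          Finset.sum_congr rfl fun i _ => Finset.sum_congr rfl fun k _ => Finset.sum_comm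
    _ = _ := Finset.sum_congr rfl fun i _ => Finset.sum_comm

/-- `e^{t + πi c_1} Γ̂` -/
noncomputable def GE (D : RS r) (t : Fin r → ℂ) : Matrix D.W D.W ℂ :=
  NormedSpace.exp (D.E0 (D.ch t) + (Real.pi * Complex.I : ℂ) • D.E0 (D.ch D.ctr) +
    ∑ k ∈ Finset.Icc 1 D.dm, gco k • ∑ a ∈ D.Pos, D.E0 (D.ch (ca a)) ^ k)

/-- the matrix with columns `ch(v_j)` -/
noncomputable def cM (v : Fin N → D.KB) : Matrix D.W (Fin N) ℂ :=
  Matrix.of fun u j => D.chK (v j) u

theorem GM_U (t : Fin r → ℂ) (U : Matrix (Fin N) (Fin N) ℤ) :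
    (D.GM t 0).submatrix id n.e * U.map (Int.castRingHom ℂ) =
      D.GE t * (smallF D t).twist * cM (vU n U) := by
  have h1 : ∀ u i, D.GM t 0 u i = (D.GE t * (smallF D t).twist * cM (fun _ : Fin 1 => bB i)) u 0 := by
    intro u i
    have h2 := congrFun (GM_zero t i) u
    have h3 : D.cls (fun p y => evK y (D.Bk i p)) 0 =
        (smallF D t).twist.mulVec (D.chK (bB i)) := by
      funext v
      rw [cls_Bk]
      unfold Small.twist
      rw [Matrix.mulVec_diagonal]
      rfl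
    have h4 : D.GM t 0 u i = (D.Gop t).mulVec ((smallF D t).twist.mulVec (D.chK (bB i))) u := by
      rw [← h3]
      exact h2
    rw [h4, Gop_exp, Matrix.mulVec_mulVec]
    rfl
  ext u j
  rw [Matrix.mul_apply]
  have h5 : ∀ i, (D.GM t 0).submatrix id n.e u i * (U.map (Int.castRingHom ℂ)) i j =
      ∑ v, (D.GE t * (smallF D t).twist) u v * (D.chK (bB (n.e i)) v * (U i j : ℂ)) := by
    intro i
    rw [Matrix.submatrix_apply, id, h1, Matrix.mul_apply, Finset.sum_mul, Matrix.map_apply]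
    refine Finset.sum_congr rfl fun v _ => ?_
    rw [mul_assoc]
    rfl
  rw [Finset.sum_congr rfl fun i _ => h5 i, Finset.sum_comm, Matrix.mul_apply]
  refine Finset.sum_congr rfl fun v _ => ?_
  rw [← Finset.mul_sum, ← chK_vU]
  rfl

/-- The numerical form of the conjecture of Dubrovin for flag varieties. -/
theorem final_rs (t : Fin r → ℂ) (M : MonodromyData (smallF D t) N) :
    ∃ v : Fin N → D.KB,
      (∀ x : D.KB, ∃ c : Fin N → ℤ, ∀ u, D.chK x u = ∑ j, (c j : ℂ) * D.chK (v j) u) ∧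
      (∀ a : Fin N → ℂ, (cM v).mulVec a = 0 → a = 0) ∧
      (∀ i j, M.S i j = D.eul (v i) (v j)) ∧
      (∀ w, M.Xminus w = (Complex.I / (Real.sqrt (2 * Real.pi) : ℂ)) ^ D.dm •
        (Zst n t w * (D.GE t * (smallF D t).twist * cM v))) ∧
      ∃ C' : Matrix D.W D.W ℂ, C' * (smallF D t).cup = (smallF D t).cup * C' ∧ C'.det ≠ 0 ∧
        M.C = C' * (smallF D t).twist * cM v ∧
        ∀ (x y : D.KB) (w : ℂ), flatPairing M w
          ((C' * (smallF D t).twist).mulVec (D.chK x))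
          ((C' * (smallF D t).twist).mulVec (D.chK y)) = D.eul x y := by
  obtain ⟨U, hU, hS, hX, K, hK1, hK2, hK3, hK4⟩ := main_flag n t M
  have hok := ok_smallF D t
  obtain ⟨c, hc⟩ : ∃ c : ℂ, c = (Complex.I / (Real.sqrt (2 * Real.pi) : ℂ)) ^ D.dm := ⟨_, rfl⟩
  rw [← hc] at hK4
  have hc0 : c ≠ 0 := by
    rw [hc]
    refine pow_ne_zero _ (div_ne_zero Complex.I_ne_zero ?_)
    exact_mod_cast (Real.sqrt_pos.2 (by positivity)).ne'
  have hKu : IsUnit K.det := isUnit_iff_ne_zero.2 hK2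
  have hGM := GM_U n t U
  have hGd : (D.GE t).det ≠ 0 :=
    ((Matrix.isUnit_iff_isUnit_det _).mp (Matrix.isUnit_exp _)).ne_zero
  have hGc : D.GE t * (smallF D t).cup = (smallF D t).cup * D.GE t := by
    have h1 := Gop_comm (D := D) t D.ctr
    rw [Gop_exp] at h1
    exact h1
  have hSe : ∀ i j, M.S i j = D.eul (vU n U i) (vU n U j) := by
    intro i j
    rw [hS, eul_vU, Matrix.mul_apply]
    simp only [Matrix.mul_apply, Matrix.transpose_apply, Matrix.map_apply, Matrix.of_apply,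
      Finset.sum_mul]
    rw [Finset.sum_comm]
    refine Finset.sum_congr rfl fun k _ => Finset.sum_congr rfl fun l _ => ?_
    rw [chiM_eul]
    simp only [Int.coe_castRingHom]
    ring
  obtain ⟨C', hC'⟩ : ∃ C' : Matrix D.W D.W ℂ, C' = c • (K⁻¹ * D.GE t) := ⟨_, rfl⟩
  have hC : M.C = C' * (smallF D t).twist * cM (vU n U) := by
    rw [hGM] at hK4
    have h1 : M.C = K⁻¹ * (K * M.C) := by
      rw [← Matrix.mul_assoc, Matrix.nonsing_inv_mul _ hKu, Matrix.one_mul]
    rw [h1, hK4, hC', Matrix.mul_smul, Matrix.smul_mul, Matrix.smul_mul]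
    simp only [Matrix.mul_assoc]
  have hvec : ∀ x : D.KB, (C' * (smallF D t).twist).mulVec (D.chK x) =
      M.C.mulVec fun j => (aU n U x j : ℂ) := by
    intro x
    rw [hC, ← Matrix.mulVec_mulVec _ (C' * (smallF D t).twist) (cM (vU n U))]
    congr 1
    funext u
    rw [chK_aU n hU x u]
    show ∑ j, (aU n U x j : ℂ) * D.chK (vU n U j) u =
      ∑ j, D.chK (vU n U j) u * (aU n U x j : ℂ)
    exact Finset.sum_congr rfl fun j _ => mul_comm _ _
  refine ⟨vU n U, fun x => ⟨aU n U x, fun u => chK_aU n hU x u⟩, ?_, hSe, ?_, C', ?_, ?_, hC, ?_⟩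
  · intro a ha
    refine C_inj hok n.e M ?_
    rw [hC, ← Matrix.mulVec_mulVec, ha, Matrix.mulVec_zero]
  · intro w
    rw [hX w, Matrix.mul_assoc, hGM]
  · rw [hC', Matrix.smul_mul, Matrix.mul_smul, Matrix.mul_assoc, hGc, ← Matrix.mul_assoc,
      ← Matrix.mul_assoc]
    congr 2
    have h1 : K⁻¹ * (K * (smallF D t).cup) * K⁻¹ = K⁻¹ * ((smallF D t).cup * K) * K⁻¹ := by
      rw [hK1]
    rw [← Matrix.mul_assoc, Matrix.nonsing_inv_mul _ hKu, Matrix.one_mul, ← Matrix.mul_assoc,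
      Matrix.mul_assoc (K⁻¹ * (smallF D t).cup), Matrix.mul_nonsing_inv _ hKu, Matrix.mul_one] at h1
    exact h1.symm
  · rw [hC', Matrix.det_smul, Matrix.det_mul, Matrix.det_nonsing_inv]
    refine mul_ne_zero (pow_ne_zero _ hc0) (mul_ne_zero ?_ hGd)
    rw [Ring.inverse_eq_inv']
    exact inv_ne_zero hK2
  · intro x y w
    rw [hvec, hvec, flatPairing_C hok n.e, eul_aU n hU x y]
    show ∑ i, (aU n U x i : ℂ) * ∑ j, M.S i j * (aU n U y j : ℂ) = _
    refine Finset.sum_congr rfl fun i _ => ?_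
    rw [Finset.mul_sum]
    refine Finset.sum_congr rfl fun j _ => ?_
    rw [hSe i j]
    ring

end RS

end Pool.Agent.FLG
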